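import Pool.Agent.Lib.MP_80aaf5_lc.Few.Defs

/-!
# Reductions between disjoint NP-pairs relative to an oracle
-/

namespace ESY

/-- `(A, B)` is a disjoint `NP`-pair relative to `O` (the sets may be empty). -/
def NPPair (O : Oracle) (A B : Set (List Bool)) : Prop :=
  InNP O A ∧ InNP O B ∧ Disjoint A B

/-- `M` with oracle `O` on input `x` halts in an accepting state within `t` steps, with the
output `y` on stack `0`. -/
def Outputs (O : Oracle) (M : Machine) (x y : List Bool) (t : ℕ) : Prop :=
  M.code ((step O M)^[t] (start M x [])).state = .halt true ∧
    ((step O M)^[t] (start M x [])).stack 0 = y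

/-- Relative to `O` there is a function computable within time `T c n`, for some index `c`, that
maps `C` into `A` and `D` into `B`. -/
def MReduces (T : ℕ → ℕ → ℕ) (O : Oracle) (C D A B : Set (List Bool)) : Prop :=
  ∃ (M : Machine) (c : ℕ), ∀ x, ∃ y, Outputs O M x y (T c x.length) ∧
    (x ∈ C → y ∈ A) ∧ (x ∈ D → y ∈ B)

/-- The pair `(A, B)` is complete (for many-one polynomial-time reductions) relative to `O`. -/
def MComplete (O : Oracle) (A B : Set (List Bool)) : Prop :=
  NPPair O A B ∧ ∀ C D, NPPair O C D → MReduces poly O C D A B

/-- `1` if the next instruction asks a question `1q` (to the second component of a join). -/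
def asks2 (M : Machine) (c : Cfg M) : ℕ :=
  match M.code c.state with
  | .query i _ _ => match c.stack i with
    | true :: _ => 1
    | _ => 0
  | _ => 0

/-- number of questions to the second component of a join in the first `t` steps -/
def queries2 (O : Oracle) (M : Machine) (t : ℕ) (c : Cfg M) : ℕ :=
  ∑ i ∈ Finset.range t, asks2 M ((step O M)^[i] c)

/-- Relative to `O ⊕ S`, some set that contains `C` and is disjoint from `D` is decided by a
machine that for inputs of length `n` runs for `T c n` steps, and asks the oracle `S` at most
`k c n` times, for some index `c`. -/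
def QSeparates (T k : ℕ → ℕ → ℕ) (O S : Oracle) (C D : Set (List Bool)) : Prop :=
  ∃ (M : Machine) (c : ℕ), ∀ x,
    (x ∈ C → AcceptsIn (join O S) M x [] (T c x.length)) ∧
    (x ∈ D → ¬ AcceptsIn (join O S) M x [] (T c x.length)) ∧
    queries2 (join O S) M (T c x.length) (start M x []) ≤ k c x.length

/-- The pair `(C, D)` is reducible to the pair `(A, B)` by Turing reductions with these bounds for
the time and for the number of questions: for every separator `S` of `(A, B)` some separator of
`(C, D)` is decided relative to `O ⊕ S` within these bounds. -/
def QReduces (T k : ℕ → ℕ → ℕ) (O : Oracle) (C D A B : Set (List Bool)) : Prop :=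
  ∀ S : Oracle, Separator A B S → QSeparates T k O S C D

end ESY
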