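import Pool.Agent.Lib.MP_80aaf5_lc.Few.Space
import Pool.Agent.Lib.MP_80aaf5_lc.Few.Family
import Pool.Agent.Lib.MP_b9add9_lc.Uni.Defs

/-!
# Worlds with one pad; continuity; the Baire argument in the closure of a set
-/

namespace ESY.Uni

open ESY ESY.Few Set Topology

/-! ### runs -/

section

variable {Y : Type*} [TopologicalSpace Y]

theorem clopen_run {Of : Y → Oracle} {M : Machine} {c : Cfg M} {t m : ℕ}
    (hc : ∀ i, (c.stack i).length ≤ m)
    (h : ∀ s : List Bool, s.length ≤ m + t → IsClopen {y | Of y s = true})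
    (P : Oracle → Prop)
    (hP : ∀ O O' : Oracle, (∀ s ∈ asked O M t c, O' s = O s) → (P O ↔ P O')) :
    IsClopen {y | P (Of y)} := by
  classical
  refine clopen_of_local fun y₀ => ?_
  have h1 : ∀ s : List Bool, ∃ V : Set Y, IsOpen V ∧ y₀ ∈ V ∧
      (s.length ≤ m + t → ∀ y ∈ V, Of y s = Of y₀ s) := by
    intro s
    by_cases hs : s.length ≤ m + t
    · obtain ⟨V, hV, hy, hVP⟩ := local_of_clopen (h s hs) y₀
      exact ⟨V, hV, hy, fun _ y hyy => Bool.eq_iff_iff.2 (hVP y hyy)⟩
    · exact ⟨univ, isOpen_univ, mem_univ _, fun h' => absurd h' hs⟩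
  choose V hV hyV hVP using h1
  refine ⟨⋂ s ∈ (asked (Of y₀) M t c).toFinset, V s,
    isOpen_biInter_finset fun s _ => hV s, by simpa using fun s _ => hyV s, fun y hy => ?_⟩
  refine (hP _ _ fun s hs => ?_).symm
  refine hVP s (asked_len _ _ _ _ _ hc s hs) y ?_
  simp only [mem_iInter] at hy
  exact hy s (List.mem_toFinset.2 hs)

end

/-! ### the oracle of a parameter -/

/-- pads of a parameter: only one pad is used -/
noncomputable def pd1 (y : Par) : Pads := fun e x _ => pdOf y e x false

theorem len_pd1 (y : Par) : Len (pd1 y) := fun e x _ => len_pdOf y e x false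

/-- the oracle of a parameter -/
noncomputable def O1 (y : Par) : Oracle := world (pd1 y) (DOf y)

theorem isWorld_O1 (y : Par) : IsWorld (pd1 y) (DOf y) (O1 y) := isWorld (len_pd1 y) _

/-- the two pads coincide -/
def One (pd : Pads) : Prop := ∀ e x, pd e x true = pd e x false

/-- a parameter with given data; the irrelevant bits are those of `y₀` -/
noncomputable def mk1 (y₀ : Par) (pd : Pads) (D : Oracle) (sg : ℕ → ℕ → Oracle) : Par :=
  mkPar y₀ (fun e x i => if i = true then pdOf y₀ e x true else pd e x false) D sg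

theorem len_mk1 (y₀ : Par) {pd : Pads} (hp : Len pd) :
    Len (fun e x i => if i = true then pdOf y₀ e x true else pd e x false) := by
  intro e x i
  cases i
  · exact hp e x false
  · exact len_pdOf y₀ e x true

theorem pd1_mk (y₀ : Par) {pd : Pads} (hp : Len pd) (h1 : One pd) (D : Oracle)
    (sg : ℕ → ℕ → Oracle) : pd1 (mk1 y₀ pd D sg) = pd := by
  funext e x i
  unfold pd1 mk1
  rw [pdOf_mk y₀ (len_mk1 y₀ hp)]
  cases i
  · rfl
  · exact (h1 e x).symm

theorem DOf_mk1 (y₀ : Par) (pd : Pads) (D : Oracle) (sg : ℕ → ℕ → Oracle) :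
    DOf (mk1 y₀ pd D sg) = D := rfl

theorem sgOf_mk1 (y₀ : Par) (pd : Pads) (D : Oracle) (sg : ℕ → ℕ → Oracle) :
    sgOf (mk1 y₀ pd D sg) = sg := rfl

theorem O1_mk (y₀ : Par) {pd : Pads} (hp : Len pd) (h1 : One pd) (D : Oracle)
    (sg : ℕ → ℕ → Oracle) : O1 (mk1 y₀ pd D sg) = world pd D := by
  rw [O1, pd1_mk y₀ hp h1, DOf_mk1]

theorem mk_agree1 (y₀ : Par) (pd : Pads) (D : Oracle) (sg : ℕ → ℕ → Oracle) (N : ℕ)
    (h1 : ∀ e x, (stm e x).length ≤ N → pd e x false = pd1 y₀ e x false)
    (h2 : ∀ w : List Bool, w.length ≤ N → D w = DOf y₀ w)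
    (h3 : ∀ a b (q : List Bool), q.length ≤ N → sg a b q = sgOf y₀ a b q) :
    ∀ i, sz i ≤ N → mk1 y₀ pd D sg i = y₀ i := by
  refine mk_agree y₀ _ D sg N (fun e x i h => ?_) h2 h3
  cases i
  · exact h1 e x h
  · rfl

theorem clopen_pd1 (e : ℕ) (x : List Bool) (i : Bool) (z : List Bool) :
    IsClopen {y : Par | pd1 y e x i = z} := clopen_pdOf e x false z

theorem clopen_O1 : ∀ (m : ℕ) (r : List Bool), r.length ≤ m → IsClopen {y | O1 y r = true} := by
  intro m
  induction m with
  | zero =>
    intro r hr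
    have : r = [] := List.length_eq_zero_iff.1 (Nat.le_zero.1 hr)
    subst this
    simp only [(isWorld_O1 _).nil]
    simp [isClopen_empty]
  | succ m ih =>
    intro r hr
    match r, hr with
    | [], _ =>
      simp only [(isWorld_O1 _).nil]
      simp [isClopen_empty]
    | true :: w, _ =>
      simp only [(isWorld_O1 _).free]
      exact clopen_coord _
    | false :: r', hr =>
      by_cases hc : ∃ z e x, z.length = (stm e x).length ^ 2 ∧ r' = cs z (stm e x)
      · obtain ⟨z, e, x, hz, rfl⟩ := hc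
        have h1 : {y | O1 y (false :: cs z (stm e x)) = true} =
            ({y | pd1 y e x false = z} ∪ {y | pd1 y e x true = z}) ∩ {y | Tr (O1 y) e x} := by
          ext y
          simp only [mem_ofPred_eq, (isWorld_O1 y).code_iff, mem_inter_iff, mem_union,
            Bool.exists_bool]
          tauto
        rw [h1]
        refine ((clopen_pd1 _ _ _ _).union (clopen_pd1 _ _ _ _)).inter (clopen_tr fun s hs => ?_)
        refine ih s ?_
        rw [List.length_cons, cs_length, hz] at hr
        have := two_stm_lt e x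
        omega
      · have h1 : {y | O1 y (false :: r') = true} = ∅ := by
          ext y
          simp only [mem_ofPred_eq, (isWorld_O1 y).code, mem_empty_iff_false, iff_false]
          rintro ⟨e, x, i, h2, -⟩
          exact hc ⟨_, e, x, len_pd1 y e x i, h2⟩
        rw [h1]
        exact isClopen_empty

theorem clopen_tr1 (e : ℕ) (x : List Bool) : IsClopen {y | Tr (O1 y) e x} :=
  clopen_tr fun s _ => clopen_O1 _ s le_rfl

open Classical in
/-- the separator of the pair of languages accepted by machines `a`, `b` -/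
noncomputable def sep1 (y : Par) (a b : ℕ) : Oracle := fun q =>
  if Tr (O1 y) a q then true else if Tr (O1 y) b q then false else sgOf y a b q

theorem clopen_sep1 (a b : ℕ) (q : List Bool) : IsClopen {y | sep1 y a b q = true} := by
  have h1 : {y | sep1 y a b q = true} =
      {y | Tr (O1 y) a q} ∪ ({y | Tr (O1 y) b q}ᶜ ∩ {y | y (.inr (.inr (a, b, q))) = true}) := by
    ext y
    simp only [mem_ofPred_eq, mem_union, mem_inter_iff, mem_compl_iff, sep1, sgOf]
    split_ifs <;> simp_all
  rw [h1]
  exact (clopen_tr1 a q).union ((clopen_tr1 b q).compl.inter (clopen_coord _))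

theorem clopen_join1 (a b : ℕ) (r : List Bool) :
    IsClopen {y | join (O1 y) (sep1 y a b) r = true} := by
  match r with
  | [] => simp [join, isClopen_empty]
  | false :: r => exact clopen_O1 _ r le_rfl
  | true :: r => exact clopen_sep1 a b r

theorem clopen_test1 (x : List Bool) : IsClopen {y | x ∈ Test (O1 y)} := by
  have h1 : {y | x ∈ Test (O1 y)} = ⋃ w ∈ {w : List Bool | w.length = x.length},
      ⋂ j ∈ {j : ℕ | j ≤ x.length}, {y | O1 y (qstr x w j) = true} := by
    ext y
    simp only [mem_ofPred_eq, mem_iUnion, mem_iInter, exists_prop]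
    rfl
  rw [h1]
  refine (List.finite_length_eq Bool x.length).isClopen_biUnion fun w _ => ?_
  exact (Set.finite_le_nat x.length).isClopen_biInter fun j _ => clopen_O1 _ _ le_rfl

/-! ### Baire category in the closure of a set -/

theorem baire_closure {X : Type*} [TopologicalSpace X] [CompactSpace X] [T2Space X] (S : Set X)
    (hS : S.Nonempty) {ι : Type*} [Countable ι] (G : ι → Set X) (hG : ∀ i, IsOpen (G i))
    (hd : ∀ i U, IsOpen U → (U ∩ S).Nonempty → (U ∩ closure S ∩ G i).Nonempty) :
    ∃ y ∈ closure S, ∀ i, y ∈ G i := by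
  have hcpt : CompactSpace (closure S) := isCompact_iff_compactSpace.1 isClosed_closure.isCompact
  have hne : Nonempty (closure S) := (hS.mono subset_closure).to_subtype
  have h1 : Dense (⋂ i, ((↑) : closure S → X) ⁻¹' G i) := by
    refine dense_iInter_of_isOpen (fun i => (hG i).preimage continuous_subtype_val) fun i => ?_
    rw [dense_iff_inter_open]
    intro V hV hVne
    obtain ⟨U, hU, rfl⟩ := isOpen_induced_iff.1 hV
    obtain ⟨⟨x, hx⟩, hxU⟩ := hVne
    obtain ⟨z, hzU, hzS⟩ := mem_closure_iff.1 hx U hU hxU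
    obtain ⟨w, ⟨hwU, hwS⟩, hwG⟩ := hd i U hU ⟨z, hzU, hzS⟩
    exact ⟨⟨w, hwS⟩, hwU, hwG⟩
  obtain ⟨⟨y, hy⟩, hyG⟩ := h1.nonempty
  exact ⟨y, hy, fun i => mem_iInter.1 hyG i⟩

end ESY.Uni
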