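import Mathlib

/-!
# The resampling lemma
-/

namespace ESY.Uni

open Finset

/-- Let `w ν` be an object depending on a random function `ν`, such that `w ν` does not depend on
`ν e` when the event `fl e` holds. If each object is hit by at most `B` pairs `(e, v)`, then with
probability at least `1 - B / |V|` no `e` with `fl e` is such that `(e, ν e)` hits `w ν`. -/
theorem resample {E V W : Type*} [Fintype E] [DecidableEq E] [Fintype V] [DecidableEq V]
    (w : (E → V) → W) (fl : E → W → Prop) (hit : E → V → W → Prop) (B : ℕ)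
    (h1 : ∀ ν e v, fl e (w ν) → w (Function.update ν e v) = w ν)
    (h2 : ∀ ν, ∃ F : Finset (E × V), F.card ≤ B ∧ ∀ e v, hit e v (w ν) → (e, v) ∈ F)
    (bad : Finset (E → V)) (hbad : ∀ ν ∈ bad, ∃ e, fl e (w ν) ∧ hit e (ν e) (w ν)) :
    bad.card * Fintype.card V ≤ Fintype.card (E → V) * B := by
  classical
  rcases bad.eq_empty_or_nonempty with rfl | ⟨ν₀, hν₀⟩
  · simp
  have : Nonempty E := ⟨(hbad ν₀ hν₀).choose⟩
  choose F hF1 hF2 using h2
  choose! g hg using hbad
  have h3 : (bad ×ˢ (univ : Finset V)).card ≤
      ((univ : Finset (E → V)).sigma fun ν => F ν).card := by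
    refine card_le_card_of_injOn
      (fun p => (⟨Function.update p.1 (g p.1) p.2, (g p.1, p.1 (g p.1))⟩ : Σ _ : E → V, E × V))
      ?_ ?_
    · rintro ⟨ν, v⟩ hν
      have hν' := (mem_product.1 hν).1
      obtain ⟨h4, h5⟩ := hg ν hν'
      simp only [coe_sigma, Set.mem_sigma_iff, mem_coe, mem_univ, true_and]
      refine hF2 _ _ _ ?_
      rw [h1 ν _ v h4]
      exact h5
    · rintro ⟨ν, v⟩ _ ⟨ν', v'⟩ _ h
      simp only [Sigma.mk.injEq, heq_eq_eq, Prod.mk.injEq] at h
      obtain ⟨h4, h5, h6⟩ := h
      have h7 : ν = ν' := by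
        funext e
        by_cases he : e = g ν
        · subst he
          rw [h6, ← h5]
        · have := congrFun h4 e
          rw [Function.update_of_ne he, Function.update_of_ne (by rw [← h5]; exact he)] at this
          exact this
      subst h7
      have h8 := congrFun h4 (g ν)
      simp only [Function.update_self] at h8
      rw [h8]
  rw [card_product, card_univ, card_sigma] at h3
  refine h3.trans ?_
  calc ∑ ν, (F ν).card ≤ ∑ _ν : E → V, B := sum_le_sum fun ν _ => hF1 ν
    _ = Fintype.card (E → V) * B := by rw [sum_const, card_univ, smul_eq_mul]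

/-- choosing a good `ν` for most of the members of a family -/
theorem choose_nu {E V P : Type*} [Fintype E] [DecidableEq E] [Fintype V] [DecidableEq V]
    [Nonempty V] [Fintype P] (bad : P → Finset (E → V)) (B : ℕ)
    (h : ∀ p, (bad p).card * Fintype.card V ≤ Fintype.card (E → V) * B)
    (bad' : Finset (E → V)) (B' : ℕ) (h' : bad'.card * Fintype.card V ≤ Fintype.card (E → V) * B')
    (c : ℕ) (hc : Fintype.card P ≤ c * Fintype.card V) (hB : c * B + B' < Fintype.card V) :
    ∃ ν, ν ∉ bad' ∧ ∃ G : Finset P, G.card ≤ c * B + B' ∧ ∀ p, p ∉ G → ν ∉ bad p := by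
  classical
  have hV : 0 < Fintype.card V := Fintype.card_pos
  -- total weight
  have h1 : ∑ ν : E → V, ((univ.filter fun p => ν ∈ bad p).card +
      (if ν ∈ bad' then Fintype.card V else 0)) ≤ Fintype.card (E → V) * (c * B + B') := by
    rw [sum_add_distrib]
    have h2 : ∑ ν : E → V, (univ.filter fun p => ν ∈ bad p).card = ∑ p, (bad p).card := by
      simp only [card_filter]
      rw [sum_comm]
      refine sum_congr rfl fun p _ => ?_
      rw [← card_filter]
      congr 1
      ext ν
      simp
    have h3 : ∑ ν : E → V, (if ν ∈ bad' then Fintype.card V else 0) =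
        bad'.card * Fintype.card V := by
      rw [← sum_filter, sum_const, smul_eq_mul]
      congr 2
      ext ν
      simp
    rw [h2, h3]
    have h4 : (∑ p, (bad p).card) * Fintype.card V ≤
        (Fintype.card (E → V) * (c * B)) * Fintype.card V := by
      rw [sum_mul]
      calc ∑ p, (bad p).card * Fintype.card V ≤ ∑ _p : P, Fintype.card (E → V) * B :=
            sum_le_sum fun p _ => h p
        _ = Fintype.card P * (Fintype.card (E → V) * B) := by rw [sum_const, card_univ, smul_eq_mul]
        _ ≤ (c * Fintype.card V) * (Fintype.card (E → V) * B) := Nat.mul_le_mul_right _ hc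
        _ = _ := by ring
    have h5 := Nat.le_of_mul_le_mul_right h4 hV
    calc _ ≤ Fintype.card (E → V) * (c * B) + Fintype.card (E → V) * B' := Nat.add_le_add h5 h'
      _ = _ := by ring
  have h6 : ∃ ν : E → V, ((univ.filter fun p => ν ∈ bad p).card +
      (if ν ∈ bad' then Fintype.card V else 0)) ≤ c * B + B' := by
    by_contra hcon
    push Not at hcon
    have hΩ : (univ : Finset (E → V)).Nonempty := univ_nonempty
    have h7 := sum_lt_sum_of_nonempty hΩ fun ν _ => hcon ν
    rw [sum_const, card_univ, smul_eq_mul] at h7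
    exact absurd h1 (not_le.2 h7)
  obtain ⟨ν, hν⟩ := h6
  refine ⟨ν, fun hmem => ?_, univ.filter fun p => ν ∈ bad p, le_trans (Nat.le_add_right _ _) hν,
    fun p hp hmem => hp (by simpa using hmem)⟩
  rw [if_pos hmem] at hν
  omega

end ESY.Uni
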