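import Pool.Agent.Lib.MP_80aaf5_lc.Few.Core
import Pool.Agent.Lib.MP_b9add9_lc.Uni.Params
import Pool.Agent.Lib.MP_b9add9_lc.Uni.Resample

/-!
# The forking lemma
-/

namespace ESY.Uni

open ESY ESY.Few Set

/-! ### the pairs -/

/-- the coded input `1^a 0 1^b 0 s x` -/
def inp (a b : ℕ) (s : Bool) (x : List Bool) : List Bool :=
  List.replicate a true ++ false :: (List.replicate b true ++ false :: (s :: x))

theorem inp_length (a b : ℕ) (s : Bool) (x : List Bool) :
    (inp a b s x).length = a + b + 3 + x.length := by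
  simp [inp]; ring

theorem inp_inj {a b a' b' : ℕ} {s s' : Bool} {x x' : List Bool}
    (h : inp a b s x = inp a' b' s' x') : a = a' ∧ b = b' ∧ s = s' ∧ x = x' := by
  obtain ⟨h1, h2⟩ := rep_inj h
  obtain ⟨h3, h4⟩ := rep_inj h2
  obtain ⟨h5, h6⟩ := List.cons.inj h4
  exact ⟨h1, h3, h5, h6⟩

/-- the closed condition on the parameters -/
def KK : Set Par := {y | ∀ a b x, inp a b false x ∈ Test (O1 y) → inp a b true x ∈ Test (O1 y) →
  ∃ q : List Bool, q.length ≤ 2 ^ (inp a b false x).length ∧ Tr (O1 y) a q ∧ Tr (O1 y) b q}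

theorem isClosed_KK : IsClosed KK := by
  have h1 : KK = ⋂ a, ⋂ b, ⋂ x, ({y | inp a b false x ∈ Test (O1 y)}ᶜ ∪
      ({y | inp a b true x ∈ Test (O1 y)}ᶜ ∪
      ⋃ q ∈ {q : List Bool | q.length ≤ 2 ^ (inp a b false x).length},
        ({y | Tr (O1 y) a q} ∩ {y | Tr (O1 y) b q}))) := by
    ext y
    simp only [KK, mem_ofPred_eq, mem_iInter, mem_union, mem_compl_iff, mem_iUnion, exists_prop,
      mem_inter_iff]
    refine forall_congr' fun a => forall_congr' fun b => forall_congr' fun x => ?_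
    rw [← imp_iff_not_or, ← imp_iff_not_or]
  rw [h1]
  refine isClosed_iInter fun a => isClosed_iInter fun b => isClosed_iInter fun x => ?_
  refine (clopen_test1 _).compl.1.union ((clopen_test1 _).compl.1.union ?_)
  exact ((List.finite_length_le Bool _).isClopen_biUnion fun q _ =>
    (clopen_tr1 a q).inter (clopen_tr1 b q)).1

/-- the tame parameters -/
def Tame (y : Par) : Prop := y ∈ KK ∧ ∃ N, ∀ s : List Bool, N < s.length → DOf y s = false

theorem test_free {y : Par} {x : List Bool} (h : x ∈ Test (O1 y)) :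
    ∃ s : List Bool, s.length = 2 * x.length ∧ DOf y s = true := by
  obtain ⟨w, hw, hj⟩ := h
  have h0 := hj 0 (Nat.zero_le _)
  have hl := qstr_length x w 0 hw
  rw [qstr_cons] at h0 hl
  rw [(isWorld_O1 y).free] at h0
  refine ⟨_, ?_, h0⟩
  simp only [List.length_cons] at hl
  omega

theorem tame_zero : Tame (fun _ => false) := by
  refine ⟨fun a b x h _ => ?_, 0, fun s _ => rfl⟩
  obtain ⟨s, -, hs⟩ := test_free h
  exact absurd hs (by simp [DOf])

theorem tame_bound {y₀ : Par} (h : Tame y₀) (N₀ : ℕ) : ∃ N, N₀ ≤ N ∧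
    (∀ s : List Bool, N ≤ s.length → DOf y₀ s = false) ∧
    ∀ a b x, inp a b false x ∈ Test (O1 y₀) → inp a b true x ∈ Test (O1 y₀) →
      ∃ q : List Bool, q.length ≤ 2 ^ (inp a b false x).length ∧ Tr (O1 y₀) a q ∧
        Tr (O1 y₀) b q ∧ (stm a q).length ≤ N ∧ (stm b q).length ≤ N := by
  classical
  obtain ⟨hK, N₁, hN₁⟩ := h
  have hfin : {p : ℕ × ℕ × List Bool | (inp p.1 p.2.1 false p.2.2).length ≤ N₁}.Finite := by
    refine Set.Finite.of_finite_image (f := fun p : ℕ × ℕ × List Bool => inp p.1 p.2.1 false p.2.2)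
      ((List.finite_length_le Bool N₁).subset ?_) ?_
    · rintro _ ⟨p, hp, rfl⟩
      exact hp
    · rintro ⟨a, b, x⟩ _ ⟨a', b', x'⟩ _ h
      obtain ⟨rfl, rfl, -, rfl⟩ := inp_inj h
      rfl
  have hq : ∀ p : ℕ × ℕ × List Bool, ∃ q : List Bool,
      inp p.1 p.2.1 false p.2.2 ∈ Test (O1 y₀) → inp p.1 p.2.1 true p.2.2 ∈ Test (O1 y₀) →
      (q.length ≤ 2 ^ (inp p.1 p.2.1 false p.2.2).length ∧ Tr (O1 y₀) p.1 q ∧
        Tr (O1 y₀) p.2.1 q) := by
    intro p
    by_cases h1 : inp p.1 p.2.1 false p.2.2 ∈ Test (O1 y₀) ∧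
        inp p.1 p.2.1 true p.2.2 ∈ Test (O1 y₀)
    · obtain ⟨q, hq⟩ := hK _ _ _ h1.1 h1.2
      exact ⟨q, fun _ _ => hq⟩
    · exact ⟨[], fun h2 h3 => absurd ⟨h2, h3⟩ h1⟩
  choose q hq using hq
  refine ⟨N₀ + (N₁ + 1) + hfin.toFinset.sup fun p => (stm p.1 (q p)).length +
    (stm p.2.1 (q p)).length, by omega, fun s hs => hN₁ s (by omega), ?_⟩
  intro a b x h1 h2
  have h3 := hq (a, b, x) h1 h2
  refine ⟨q (a, b, x), h3.1, h3.2.1, h3.2.2, ?_⟩
  have h4 : (inp a b false x).length ≤ N₁ := by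
    obtain ⟨s, hs, hD⟩ := test_free h1
    by_contra hcon
    rw [hN₁ s (by omega)] at hD
    exact absurd hD (by decide)
  have h5 := Finset.le_sup (s := hfin.toFinset) (f := fun p : ℕ × ℕ × List Bool =>
    (stm p.1 (q p)).length + (stm p.2.1 (q p)).length) (b := (a, b, x)) (by simpa using h4)
  simp only at h5
  omega

theorem world_unique {pd : Pads} (hp : Len pd) {D O O' : Oracle} (h : IsWorld pd D O)
    (h' : IsWorld pd D O') : O = O' := by
  funext r
  exact short_agree hp hp h h' r.length (fun _ _ _ _ => rfl) (fun _ _ => rfl) r (by omega)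

/-! ### closures of a world -/

/-- the query sets of the chosen witnesses -/
noncomputable def QO (O : Oracle) (e : ℕ) (x : List Bool) : Finset (List Bool) :=
  qs O e x (wit O e x)

theorem qb_QO (O : Oracle) : QB (QO O) := fun e x => qs_bound _ _ _ _ (wit_len _ _ _)

theorem sup_QO (O : Oracle) : ∀ e x, Tr O e x → ∃ u : List Bool, u.length ≤ tb e x ∧
    AcceptsIn O (nu e).1 x u (tb e x) ∧
    ∀ s ∈ asked O (nu e).1 (tb e x) (start (nu e).1 x u), s ∈ QO O e x :=
  fun _ _ h => ⟨_, (wit_spec h).1, (wit_spec h).2, fun _ hs => List.mem_toFinset.2 hs⟩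

theorem cl_len {Q : ℕ → List Bool → Finset (List Bool)} (hQ : QB Q) {pd : Pads} (hp : Len pd)
    {D O : Oracle} (hO : IsWorld pd D O) {r₀ r : List Bool} (h : Cl Q O r₀ r) :
    r.length ≤ r₀.length := by
  induction h with
  | base => exact le_rfl
  | @step e x z r _ h2 h3 ih =>
    obtain ⟨⟨i, hi⟩, -⟩ := (hO.code_iff e x z).1 h2
    have h4 := code_len hp e x i
    rw [← hi] at h4
    have h5 := two_stm_lt e x
    have h6 := (hQ e x).2 r h3
    omega

/-- The data of the forking lemma. -/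
structure Fork (a b : ℕ) : Type where
  U : Set Par
  y₀ : Par
  N : ℕ
  hU : ∀ y : Par, (∀ i, sz i ≤ N → y i = y₀ i) → y ∈ U
  hdis : ∀ y ∈ U, Tame y → ∀ q, ¬ (Tr (O1 y) a q ∧ Tr (O1 y) b q)
  hfin : ∀ s : List Bool, N ≤ s.length → DOf y₀ s = false
  hviol : ∀ a' b' x, inp a' b' false x ∈ Test (O1 y₀) → inp a' b' true x ∈ Test (O1 y₀) →
    ∃ q : List Bool, q.length ≤ 2 ^ (inp a' b' false x).length ∧ Tr (O1 y₀) a' q ∧
      Tr (O1 y₀) b' q ∧ (stm a' q).length ≤ N ∧ (stm b' q).length ≤ N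
  n₁ : ℕ
  hn₁ : N ≤ n₁
  V₀ : Finset (List Bool)
  T₀ : Finset (List Bool)
  ℓ : ℕ
  hℓ : ∀ q ∈ V₀, (stm a q).length ≤ ℓ ∧ (stm b q).length ≤ ℓ
  hN : ∀ q : List Bool, q.length ≤ N → (stm a q).length ≤ n₁ ∧ (stm b q).length ≤ n₁
  hm : ∀ q ∈ V₀, q.length ≤ 2 ^ n₁
  hB : 4 * (V₀.card * (ℓ + ℓ) * (1 + (2 * ℓ) ^ 2)) + 2 * T₀.card + 1 < 2 ^ n₁

namespace Fork

variable {a b : ℕ} (F : Fork a b)

/-- the input -/
def x₁ : List Bool := List.replicate F.n₁ false

theorem x₁_len : F.x₁.length = F.n₁ := by simp [x₁]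

/-- the length of the coded input -/
def n : ℕ := a + b + 3 + F.n₁

/-- the coded inputs -/
def X (s : Bool) : List Bool := inp a b s F.x₁

theorem X_len (s : Bool) : (F.X s).length = F.n := by
  rw [X, inp_length, x₁_len, n]

theorem X_inj {s s' : Bool} (h : F.X s = F.X s') : s = s' := (inp_inj h).2.2.1

theorem n₁_le : F.n₁ ≤ F.n := by unfold n; omega

theorem pow_le : 2 ^ F.n₁ ≤ 2 ^ F.n := Nat.pow_le_pow_right (by norm_num) F.n₁_le

theorem N_lt : F.N < F.n := by
  have := F.hn₁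
  unfold n
  omega

/-- the bound for closures -/
def B : ℕ := F.V₀.card * (F.ℓ + F.ℓ) * (1 + (2 * F.ℓ) ^ 2)

theorem hB' : 4 * F.B + 2 * F.T₀.card + 1 < 2 ^ F.n := lt_of_lt_of_le F.hB F.pow_le

/-- bound for the statements with random pads -/
def L : ℕ := 2 * F.ℓ + F.T₀.sup List.length

/-- the string `r` belongs to the block of the word `p.2` and the side `p.1` -/
def Blk (p : Bool × List Bool) (r : List Bool) : Prop := ∃ j ≤ F.n, r = qstr (F.X p.1) p.2 j

theorem blk_inj {p p' : Bool × List Bool} (hp : p.2.length = F.n) (hp' : p'.2.length = F.n)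
    {r : List Bool} (h : F.Blk p r) (h' : F.Blk p' r) : p = p' := by
  obtain ⟨j, -, hj⟩ := h
  obtain ⟨j', -, hj'⟩ := h'
  obtain ⟨h1, h2, -⟩ := qstr_inj (by rw [hp, X_len]) (by rw [X_len, X_len]) (by rw [hp', X_len])
    (hj.symm.trans hj')
  exact Prod.ext (F.X_inj h1) h2

theorem blk_len {p : Bool × List Bool} (hp : p.2.length = F.n) {r : List Bool} (h : F.Blk p r) :
    2 * F.n + 1 ≤ r.length ∧ r.length ≤ 3 * F.n + 1 := by
  obtain ⟨j, hj1, rfl⟩ := h
  rw [qstr_length _ _ _ (by rw [hp, X_len]), X_len]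
  omega

open Classical in
/-- the free part with the blocks of `P` -/
noncomputable def DP (P : Set (Bool × List Bool)) : Oracle := fun s =>
  if ∃ p ∈ P, F.Blk p (true :: s) then true else DOf F.y₀ s

/-- sets of words of the right length -/
def Words (P : Set (Bool × List Bool)) : Prop := ∀ p ∈ P, p.2.length = F.n

theorem DP_pos {P : Set (Bool × List Bool)} {s : List Bool} (h : ∃ p ∈ P, F.Blk p (true :: s)) :
    F.DP P s = true := if_pos h

theorem DP_neg {P : Set (Bool × List Bool)} {s : List Bool} (h : ¬ ∃ p ∈ P, F.Blk p (true :: s)) :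
    F.DP P s = DOf F.y₀ s := if_neg h

theorem DP_short {P : Set (Bool × List Bool)} (hP : F.Words P) {s : List Bool}
    (h : s.length < 2 * F.n) : F.DP P s = DOf F.y₀ s := by
  refine F.DP_neg ?_
  rintro ⟨p, hp, h1⟩
  have := (F.blk_len (hP p hp) h1).1
  simp only [List.length_cons] at this
  omega

/-! ### random pads -/

/-- the statements with random pads -/
abbrev E : Type := {p : ℕ × List Bool // F.n < (stm p.1 p.2).length ∧ (stm p.1 p.2).length ≤ F.L}

instance : Finite F.E := by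
  have : Finite {s : List Bool // s.length ≤ F.L} :=
    (List.finite_length_le Bool F.L).to_subtype
  refine Finite.of_injective (β := {s : List Bool // s.length ≤ F.L})
    (fun p => ⟨stm p.1.1 p.1.2, p.2.2⟩) ?_
  rintro ⟨⟨e, x⟩, h⟩ ⟨⟨e', x'⟩, h'⟩ heq
  obtain ⟨rfl, rfl⟩ := stm_inj (Subtype.ext_iff.1 heq)
  rfl

noncomputable instance : Fintype F.E := Fintype.ofFinite _

/-- the words -/
abbrev V : Type := Fin F.n → Bool

theorem card_V : Fintype.card F.V = 2 ^ F.n := by simp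

open Classical in
/-- the pads -/
noncomputable def pn (ν : F.E → F.V) : Pads := fun e x i =>
  if h : F.n < (stm e x).length ∧ (stm e x).length ≤ F.L then lab (wl (ν ⟨(e, x), h⟩)) e x
  else pd1 F.y₀ e x i

theorem pn_E (ν : F.E → F.V) (s : F.E) (i : Bool) :
    F.pn ν s.1.1 s.1.2 i = lab (wl (ν s)) s.1.1 s.1.2 := dif_pos s.2

theorem pn_short (ν : F.E → F.V) {e : ℕ} {x : List Bool} (h : (stm e x).length ≤ F.n) (i : Bool) :
    F.pn ν e x i = pd1 F.y₀ e x i := dif_neg fun h' => absurd h'.1 (not_lt.2 h)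

theorem len_pn (ν : F.E → F.V) : Len (F.pn ν) := by
  intro e x i
  unfold pn
  split_ifs with h
  · exact lab_length (by rw [List.length_ofFn]; exact h.1)
  · exact len_pd1 _ _ _ _

theorem one_pn (ν : F.E → F.V) : One (F.pn ν) := by
  intro e x
  unfold pn
  split_ifs with h
  · rfl
  · rfl

/-- the worlds -/
noncomputable def W (ν : F.E → F.V) (P : Set (Bool × List Bool)) : Oracle :=
  world (F.pn ν) (F.DP P)

theorem isW (ν : F.E → F.V) (P : Set (Bool × List Bool)) :
    IsWorld (F.pn ν) (F.DP P) (F.W ν P) := isWorld (F.len_pn ν) _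

theorem agree_short (ν : F.E → F.V) {P : Set (Bool × List Bool)} (hP : F.Words P) :
    Agree (2 * F.n) (O1 F.y₀) (F.W ν P) :=
  short_agree (len_pd1 _) (F.len_pn ν) (isWorld_O1 _) (F.isW ν P) _
    (fun _ _ i h => (F.pn_short ν h i).symm) fun _ hs => (F.DP_short hP hs).symm

theorem tr_short (ν : F.E → F.V) {P : Set (Bool × List Bool)} (hP : F.Words P) {e : ℕ}
    {x : List Bool} (h : (stm e x).length ≤ F.n) : Tr (O1 F.y₀) e x ↔ Tr (F.W ν P) e x :=
  Base.tr_short (F.agree_short ν hP) h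

open Classical in
theorem W_update (ν : F.E → F.V) (P : Set (Bool × List Bool)) (s : F.E) (v : F.V)
    (h : ¬ Tr (F.W ν P) s.1.1 s.1.2) : F.W (Function.update ν s v) P = F.W ν P := by
  refine world_unique (F.len_pn _) (F.isW _ P) ⟨(F.isW ν P).nil, (F.isW ν P).free, fun r => ?_⟩
  rw [(F.isW ν P).code]
  refine exists_congr fun e => exists_congr fun x => exists_congr fun i => ?_
  by_cases hs : (e, x) = s.1
  · have h1 : ¬ Tr (F.W ν P) e x := by
      have h2 : e = s.1.1 := congrArg Prod.fst hs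
      have h3 : x = s.1.2 := congrArg Prod.snd hs
      rw [h2, h3]
      exact h
    simp only [h1, and_false]
  · have h1 : F.pn (Function.update ν s v) e x i = F.pn ν e x i := by
      unfold pn
      split_ifs with h2
      · rw [Function.update_of_ne fun h3 => hs (congrArg Subtype.val h3)]
      · rfl
    rw [h1]

/-! ### closures -/

/-- the roots -/
noncomputable def roots (O : Oracle) : Finset (List Bool) :=
  F.V₀.biUnion fun q => QO O a q ∪ QO O b q

theorem roots_card (O : Oracle) : (F.roots O).card ≤ F.V₀.card * (F.ℓ + F.ℓ) := by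
  refine Finset.card_biUnion_le_card_mul _ _ _ fun q hq => ?_
  have h1 := (qb_QO O a q).1
  have h2 := (qb_QO O b q).1
  have h3 := F.hℓ q hq
  have h4 := Finset.card_union_le (QO O a q) (QO O b q)
  omega

theorem roots_len {O : Oracle} {r : List Bool} (h : r ∈ F.roots O) : r.length ≤ 2 * F.ℓ := by
  obtain ⟨q, hq, h1⟩ := Finset.mem_biUnion.1 h
  have h3 := F.hℓ q hq
  rcases Finset.mem_union.1 h1 with h1 | h1
  · have := (qb_QO O a q).2 r h1
    omega
  · have := (qb_QO O b q).2 r h1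
    omega

/-- the closure of a world -/
def CS (O : Oracle) : Set (List Bool) := clos (QO O) O (F.roots O)

theorem closed_CS (O : Oracle) : Closed (QO O) O (F.CS O) := closed_clos _ _ _

theorem CS_fin {pd : Pads} (hp : Len pd) {D O : Oracle} (hO : IsWorld pd D O) :
    ∃ G : Finset (List Bool), (∀ r ∈ F.CS O, r ∈ G) ∧ G.card ≤ F.B := by
  obtain ⟨G, h1, h2⟩ := clos_card (qb_QO O) hp hO (F.roots O) (2 * F.ℓ) fun r hr => F.roots_len hr
  exact ⟨G, h1, h2.trans (Nat.mul_le_mul_right _ (F.roots_card O))⟩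

theorem CS_len {pd : Pads} (hp : Len pd) {D O : Oracle} (hO : IsWorld pd D O) {r : List Bool}
    (h : r ∈ F.CS O) : r.length ≤ 2 * F.ℓ := by
  obtain ⟨r₀, h0, h1⟩ := h
  exact (cl_len (qb_QO O) hp hO h1).trans (F.roots_len h0)

/-- the code string of the statement `s` with pad `v` -/
noncomputable def code (s : F.E) (v : F.V) : List Bool :=
  false :: cs (lab (wl v) s.1.1 s.1.2) (stm s.1.1 s.1.2)

theorem code_inj {s s' : F.E} {v v' : F.V} (h : F.code s v = F.code s' v') : s = s' ∧ v = v' := by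
  obtain ⟨h1, h2⟩ := cs_inj (List.cons.inj h).2
  obtain ⟨h3, h4⟩ := stm_inj h2
  have h5 : s = s' := Subtype.ext (Prod.ext h3 h4)
  subst h5
  exact ⟨rfl, List.ofFn_injective (lab_inj (by simp) h1)⟩

open Classical in
theorem code_count (G : Finset (List Bool)) : ∃ H : Finset (F.E × F.V), H.card ≤ G.card ∧
    ∀ s v, F.code s v ∈ G → (s, v) ∈ H := by
  refine ⟨Finset.univ.filter fun p => F.code p.1 p.2 ∈ G, ?_, fun s v h => by simpa using h⟩
  refine Finset.card_le_card_of_injOn (fun p => F.code p.1 p.2) (fun p hp => ?_) ?_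
  · exact (Finset.mem_filter.1 hp).2
  · rintro ⟨s, v⟩ _ ⟨s', v'⟩ _ h
    obtain ⟨rfl, rfl⟩ := F.code_inj h
    rfl

theorem blk_count (σ : Bool) (G : Finset (List Bool)) : ∃ H : Finset F.V, H.card ≤ G.card ∧
    ∀ u : F.V, (∃ r ∈ G, F.Blk (σ, wl u) r) → u ∈ H := by
  classical
  refine ⟨Finset.univ.filter fun u => ∃ r ∈ G, F.Blk (σ, wl u) r, ?_, fun u hu => by simpa using hu⟩
  have h1 : ∀ u ∈ Finset.univ.filter (fun u : F.V => ∃ r ∈ G, F.Blk (σ, wl u) r),
      ∃ r, r ∈ G ∧ F.Blk (σ, wl u) r := by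
    intro u hu
    obtain ⟨r, h1, h2⟩ := (Finset.mem_filter.1 hu).2
    exact ⟨r, h1, h2⟩
  choose! g hg using h1
  refine Finset.card_le_card_of_injOn g (fun u hu => (hg u hu).1) ?_
  intro u hu v hv huv
  have h2 := (hg u hu).2
  rw [huv] at h2
  have h3 := F.blk_inj (by simp) (by simp) h2 (hg v hv).2
  exact List.ofFn_injective (congrArg Prod.snd h3)

/-- the union world agrees with a world on its closure -/
theorem agree_union (ν : F.E → F.V) {p p' : Bool × List Bool} (hp : p.2.length = F.n)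
    (hp' : p'.2.length = F.n) (hfree : ∀ r ∈ F.CS (F.W ν {p}), ¬ F.Blk p' r)
    (hno : ∀ s : F.E, ¬ Tr (F.W ν {p}) s.1.1 s.1.2 → F.code s (ν s) ∉ F.CS (F.W ν {p}))
    {P : Set (Bool × List Bool)} (hP : ∀ q, q ∈ P ↔ q = p ∨ q = p') :
    ∀ r ∈ F.CS (F.W ν {p}), F.W ν P r = F.W ν {p} r := by
  have hPw : F.Words P := by
    intro q hq
    rcases (hP q).1 hq with rfl | rfl
    · exact hp
    · exact hp'
  have hpw : F.Words {p} := by
    rintro q rfl
    exact hp
  refine transfer (F.len_pn ν) (F.isW ν {p}) (F.isW ν P) (sup_QO _) (qb_QO _) (F.closed_CS _)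
    ?_ ?_ ?_
  · intro s hs
    by_cases h1 : ∃ q ∈ ({p} : Set (Bool × List Bool)), F.Blk q (true :: s)
    · rw [F.DP_pos h1]
      obtain ⟨q, rfl, hq⟩ := h1
      exact F.DP_pos ⟨q, (hP q).2 (Or.inl rfl), hq⟩
    · rw [F.DP_neg h1]
      refine F.DP_neg ?_
      rintro ⟨q, hq, h2⟩
      rcases (hP q).1 hq with rfl | rfl
      · exact h1 ⟨q, rfl, h2⟩
      · exact hfree _ hs h2
  · intro e x i _ _
    exact ⟨i, rfl⟩
  · intro e x i hs ht
    by_cases h1 : (stm e x).length ≤ F.n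
    · exact ((F.isW ν {p}).code_iff _ _ _).2 ⟨⟨i, rfl⟩,
        (F.tr_short ν hpw h1).1 ((F.tr_short ν hPw h1).2 ht)⟩
    · have h2 := F.CS_len (F.len_pn ν) (F.isW ν {p}) hs
      have h3 : (stm e x).length ≤ F.L := by
        rw [List.length_cons, cs_length] at h2
        unfold L
        omega
      let s : F.E := ⟨(e, x), not_le.1 h1, h3⟩
      have h4 : F.pn ν e x i = lab (wl (ν s)) e x := F.pn_E ν s i
      by_contra h5
      refine hno s (fun h6 => h5 ?_) ?_
      · exact ((F.isW ν {p}).code_iff _ _ _).2 ⟨⟨i, rfl⟩, h6⟩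
      · rw [h4] at hs
        exact hs

theorem tr_union (ν : F.E → F.V) {p p' : Bool × List Bool} (hp : p.2.length = F.n)
    (hp' : p'.2.length = F.n) (hfree : ∀ r ∈ F.CS (F.W ν {p}), ¬ F.Blk p' r)
    (hno : ∀ s : F.E, ¬ Tr (F.W ν {p}) s.1.1 s.1.2 → F.code s (ν s) ∉ F.CS (F.W ν {p}))
    {P : Set (Bool × List Bool)} (hP : ∀ q, q ∈ P ↔ q = p ∨ q = p') {q : List Bool}
    (hq : q ∈ F.V₀) : (Tr (F.W ν {p}) a q → Tr (F.W ν P) a q) ∧
      (Tr (F.W ν {p}) b q → Tr (F.W ν P) b q) := by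
  have h0 := F.agree_union ν hp hp' hfree hno hP
  constructor
  · intro h
    obtain ⟨u, h1, h2, h3⟩ := sup_QO _ _ _ h
    refine ⟨u, h1, (accepts_congr fun s hs => h0 s (subset_clos ?_)).2 h2⟩
    exact Finset.mem_biUnion.2 ⟨q, hq, Finset.mem_union_left _ (h3 s hs)⟩
  · intro h
    obtain ⟨u, h1, h2, h3⟩ := sup_QO _ _ _ h
    refine ⟨u, h1, (accepts_congr fun s hs => h0 s (subset_clos ?_)).2 h2⟩
    exact Finset.mem_biUnion.2 ⟨q, hq, Finset.mem_union_right _ (h3 s hs)⟩

/-! ### membership in the space -/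

theorem O1_y (ν : F.E → F.V) (P : Set (Bool × List Bool)) (sg : ℕ → ℕ → Oracle) :
    O1 (mk1 F.y₀ (F.pn ν) (F.DP P) sg) = F.W ν P := O1_mk _ (F.len_pn ν) (F.one_pn ν) _ _

theorem memU (ν : F.E → F.V) {P : Set (Bool × List Bool)} (hP : F.Words P)
    {sg : ℕ → ℕ → Oracle}
    (hsg : ∀ j₁ j₂ (q : List Bool), q.length ≤ F.N → sg j₁ j₂ q = sgOf F.y₀ j₁ j₂ q) :
    mk1 F.y₀ (F.pn ν) (F.DP P) sg ∈ F.U := by
  have := F.N_lt
  refine F.hU _ (mk_agree1 _ _ _ _ _ ?_ ?_ hsg)
  · intro e x h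
    exact F.pn_short ν (by omega) false
  · intro s h
    exact F.DP_short hP (by omega)

theorem test_W (ν : F.E → F.V) {P : Set (Bool × List Bool)} (hP : F.Words P) {z : List Bool}
    (h : z ∈ Test (F.W ν P)) : z ∈ Test (O1 F.y₀) ∨ ∃ p ∈ P, z = F.X p.1 := by
  by_cases h0 : ∃ p ∈ P, z = F.X p.1
  · exact Or.inr h0
  · left
    obtain ⟨w, hw, hj⟩ := h
    have hfree : ∀ j ≤ z.length, (¬ ∃ p ∈ P, F.Blk p (qstr z w j)) →
        2 * z.length + j < F.N := by
      intro j hjn h2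
      have h1 := hj j hjn
      rw [qstr_cons] at h2
      rw [qstr_cons, (F.isW ν P).free, F.DP_neg h2] at h1
      by_contra hcon
      have h3 := qstr_length z w j hw
      rw [qstr_cons, List.length_cons] at h3
      rw [F.hfin _ (by omega)] at h1
      exact absurd h1 (by decide)
    have hlen : ∀ j ≤ z.length, ∀ p ∈ P, F.Blk p (qstr z w j) → z.length = F.n := by
      intro j hjn p hp hb
      have h1 := F.blk_len (hP p hp) hb
      rw [qstr_length z w j hw] at h1
      have hN := F.N_lt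
      by_contra hne
      rcases Nat.lt_or_gt_of_ne hne with hlt | hgt
      · have h2 := hfree 0 (Nat.zero_le _) (by
          rintro ⟨p', hp', hb'⟩
          have h3 := (F.blk_len (hP p' hp') hb').1
          rw [qstr_length z w 0 hw] at h3
          omega)
        omega
      · have h2 := hfree z.length le_rfl (by
          rintro ⟨p', hp', hb'⟩
          have h3 := (F.blk_len (hP p' hp') hb').2
          rw [qstr_length z w _ hw] at h3
          omega)
        omega
    refine ⟨w, hw, fun j hjn => ?_⟩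
    have h1 := hj j hjn
    have h2 : ¬ ∃ p ∈ P, F.Blk p (qstr z w j) := by
      rintro ⟨p, hp, hb⟩
      have h3 := hlen j hjn p hp hb
      obtain ⟨j', -, h4⟩ := hb
      have h5 := qstr_inj hw (by rw [X_len, h3]) (by rw [hP p hp, h3]) h4
      exact h0 ⟨p, hp, h5.1⟩
    rw [qstr_cons] at h2
    rw [qstr_cons, (F.isW ν P).free, F.DP_neg h2] at h1
    rw [qstr_cons, (isWorld_O1 _).free]
    exact h1

theorem old_len {z : List Bool} (h : z ∈ Test (O1 F.y₀)) : z.length < F.n := by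
  obtain ⟨s, hs, hD⟩ := test_free h
  by_contra hcon
  have hN := F.N_lt
  rw [F.hfin s (by omega)] at hD
  exact absurd hD (by decide)

theorem memK (ν : F.E → F.V) {P : Set (Bool × List Bool)} (hP : F.Words P)
    (hq : ∀ w w', (false, w) ∈ P → (true, w') ∈ P → ∃ q : List Bool, q.length ≤ 2 ^ F.n₁ ∧
      Tr (F.W ν P) a q ∧ Tr (F.W ν P) b q) (sg : ℕ → ℕ → Oracle) :
    Tame (mk1 F.y₀ (F.pn ν) (F.DP P) sg) := by
  constructor
  · intro a' b' x h1 h2
    rw [O1_y] at h1 h2 ⊢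
    have hX : ∀ (σ σ' : Bool), inp a' b' σ x = F.X σ' → a' = a ∧ b' = b ∧ σ = σ' ∧ x = F.x₁ :=
      fun σ σ' h => inp_inj h
    have hl : ∀ σ, (inp a' b' σ x).length = (inp a' b' false x).length := by
      intro σ
      rw [inp_length, inp_length]
    rcases F.test_W ν hP h1 with h3 | ⟨p, hp, h3⟩ <;>
      rcases F.test_W ν hP h2 with h4 | ⟨p', hp', h4⟩
    · obtain ⟨q, hq1, hq2, hq3, hq4, hq5⟩ := F.hviol a' b' x h3 h4
      have hN := F.N_lt
      exact ⟨q, hq1, (F.tr_short ν hP (by omega)).1 hq2, (F.tr_short ν hP (by omega)).1 hq3⟩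
    · exfalso
      have h5 := F.old_len h3
      have h6 := hl true
      rw [h4, X_len] at h6
      omega
    · exfalso
      have h5 := F.old_len h4
      have h6 := hl true
      rw [h3, X_len] at h6
      omega
    · obtain ⟨rfl, rfl, h5, rfl⟩ := hX _ _ h3
      obtain ⟨-, -, h6, -⟩ := hX _ _ h4
      obtain ⟨σ, w⟩ := p
      obtain ⟨σ', w'⟩ := p'
      simp only at h5 h6
      subst h5 h6
      obtain ⟨q, hq1, hq2⟩ := hq w w' hp hp'
      refine ⟨q, hq1.trans ?_, hq2⟩
      rw [h3, X_len]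
      exact F.pow_le
  · refine ⟨F.N + 3 * F.n, fun s hs => ?_⟩
    rw [DOf_mk1, F.DP_neg]
    · exact F.hfin s (by omega)
    · rintro ⟨p, hp, h⟩
      have := (F.blk_len (hP p hp) h).2
      rw [List.length_cons] at this
      omega

end Fork

end ESY.Uni
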