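import Pool.Agent.Lib.MP_80aaf5_lc.Few.Machine
import Pool.Agent.Lib.MP_b9add9_lc.Uni.Fork

/-!
# Machines that first push a string
-/

namespace ESY.Uni

open ESY ESY.Few

/-- rename the states of an instruction -/
def mapI {k q q' : ℕ} (f : Fin q → Fin q') : Instr k q → Instr k q'
  | .push i b n => .push i b (f n)
  | .pop i a b c => .pop i (f a) (f b) (f c)
  | .query i a b => .query i (f a) (f b)
  | .halt b => .halt b

/-- first push the bit `b` on stack `0`, then run `M` -/
def push1 (b : Bool) (M : Machine) : Machine where
  k := M.k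
  q := M.q + 1
  code := fun s => Fin.cases (.push 0 b 1) (fun s' => mapI Fin.succ (M.code s')) s

/-- embedding of configurations -/
def emb (b : Bool) (M : Machine) (c : Cfg M) : Cfg (push1 b M) := ⟨Fin.succ c.state, c.stack⟩

theorem code_succ (b : Bool) (M : Machine) (s : Fin (M.q + 1)) :
    (push1 b M).code (Fin.succ s) = mapI Fin.succ (M.code s) := rfl

theorem step_emb (O : Oracle) (b : Bool) (M : Machine) (c : Cfg M) :
    step O (push1 b M) (emb b M c) = emb b M (step O M c) := by
  have h : (push1 b M).code (emb b M c).state = mapI Fin.succ (M.code c.state) := rfl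
  unfold step
  rw [h]
  cases hc : M.code c.state with
  | push i v n => rfl
  | pop i x y z =>
    simp only [mapI]
    have h2 : (emb b M c).stack i = c.stack i := rfl
    rw [h2]
    rcases hs : c.stack i with _ | ⟨_ | _, s⟩ <;> rfl
  | query i x y =>
    simp only [mapI]
    have h2 : (emb b M c).stack i = c.stack i := rfl
    rw [h2]
    by_cases ho : O (c.stack i) = true
    · simp only [ho, if_true]; rfl
    · simp only [ho]; rfl
  | halt v => rfl

theorem run_emb (O : Oracle) (b : Bool) (M : Machine) (t : ℕ) : ∀ c : Cfg M,
    (step O (push1 b M))^[t] (emb b M c) = emb b M ((step O M)^[t] c) := by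
  induction t with
  | zero => intro c; rfl
  | succ t ih =>
    intro c
    rw [Function.iterate_succ_apply, step_emb, ih]
    rfl

theorem start_push1 (O : Oracle) (b : Bool) (M : Machine) (x w : List Bool) :
    step O (push1 b M) (start (push1 b M) x w) = emb b M (start M (b :: x) w) := by
  change (⟨1, Function.update (start (push1 b M) x w).stack 0 (b :: x)⟩ : Cfg (push1 b M)) = _
  have h : Function.update (fun i : Fin (M.k + 2) => if i = 0 then x else if i = 1 then w else [])
      0 (b :: x) = fun i : Fin (M.k + 2) => if i = 0 then b :: x else if i = 1 then w else [] := by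
    funext i
    by_cases hi : i = 0
    · subst hi
      simp
    · rw [Function.update_of_ne hi]
      simp [hi]
  exact congrArg (Cfg.mk (M := push1 b M) 1) h

theorem accepts_push1 (O : Oracle) (b : Bool) (M : Machine) (x w : List Bool) (T : ℕ) :
    AcceptsIn O (push1 b M) x w (T + 1) ↔ AcceptsIn O M (b :: x) w T := by
  unfold AcceptsIn
  rw [Function.iterate_succ_apply, start_push1, run_emb]
  have h : (push1 b M).code (emb b M ((step O M)^[T] (start M (b :: x) w))).state =
    mapI Fin.succ (M.code ((step O M)^[T] (start M (b :: x) w)).state) := rfl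
  rw [h]
  cases hc : M.code ((step O M)^[T] (start M (b :: x) w)).state with
  | halt v =>
    constructor
    · intro h1
      have := Instr.halt.inj h1
      rw [this]
    · intro h1
      have := Instr.halt.inj h1
      rw [this]
      rfl
  | push i v n => simp [mapI]
  | pop i u v n => simp [mapI]
  | query i u v => simp [mapI]

/-- first push the string `p` on stack `0`, then run `M` -/
def pushM : List Bool → Machine → Machine
  | [], M => M
  | b :: p, M => pushM p (push1 b M)

theorem accepts_pushM (O : Oracle) : ∀ (p : List Bool) (M : Machine) (x w : List Bool) (T : ℕ),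
    AcceptsIn O (pushM p M) x w (T + p.length) ↔ AcceptsIn O M (p ++ x) w T := by
  intro p
  induction p with
  | nil => intro M x w T; rfl
  | cons b p ih =>
    intro M x w T
    have h : T + (b :: p).length = (T + 1) + p.length := by
      rw [List.length_cons]; ring
    rw [h]
    exact (ih (push1 b M) x w (T + 1)).trans (accepts_push1 O b M (p ++ x) w T)

theorem inNP_pre (O : Oracle) (p : List Bool) : InNP O {x | p ++ x ∈ Test O} := by
  obtain ⟨c, hc⟩ : PB fun n => 8 * n + (9 * p.length + 7) :=
    pb_add (pb_mul (pb_const 8) pb_id) (pb_const _)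
  refine ⟨pushM p ver, c, fun x => ?_⟩
  have h1 := hc x.length
  simp only at h1
  obtain ⟨T', hT'⟩ : ∃ T', poly c x.length = T' + p.length := ⟨poly c x.length - p.length, by omega⟩
  have h2 : 8 * (p ++ x).length + 7 ≤ T' := by
    rw [List.length_append]
    omega
  rw [hT']
  constructor
  · rintro ⟨w, hw, hj⟩
    refine ⟨w, ?_, (accepts_pushM O p ver x w T').2 ((accepts_ver O _ _ _ h2).2 ⟨hw, hj⟩)⟩
    rw [hw]
    omega
  · rintro ⟨w, -, h3⟩
    obtain ⟨h4, h5⟩ := (accepts_ver O _ _ _ h2).1 ((accepts_pushM O p ver x w T').1 h3)
    exact ⟨w, h4, h5⟩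

theorem inNP_inp (O : Oracle) (a b : ℕ) (s : Bool) : InNP O {x | inp a b s x ∈ Test O} := by
  have h := inNP_pre O (List.replicate a true ++ false :: (List.replicate b true ++ [false, s]))
  have h1 : ∀ x, (List.replicate a true ++ false :: (List.replicate b true ++ [false, s])) ++ x =
      inp a b s x := by
    intro x
    simp [inp]
  simpa only [h1] using h

/-- In the worlds with one pad, `NP` is included in `UP`. -/
theorem up_of_world {pd : Pads} {D O : Oracle} (hp : Len pd) (h1 : One pd)
    (hO : IsWorld pd D O) {L : Set (List Bool)} {e : ℕ} (hL : ∀ x, x ∈ L ↔ Tr O e x) :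
    InUPk 1 O L := by
  have hpb : PB fun n => (e + 8) + 5 * ((poly (nu e).2 n + 1) +
      (poly (nu e).2 n + 1 + (e + 1 + n)) ^ 2) := by
    refine pb_add (pb_const _) (pb_mul (pb_const 5) (pb_add (pb_add (pb_poly _) (pb_const 1))
      (pb_pow (pb_add (pb_add (pb_poly _) (pb_const 1)) (pb_add (pb_const _) pb_id)) 2)))
  obtain ⟨c, hc⟩ := hpb
  have hlen : ∀ x i, e + 5 * (List.replicate (tb e x) true ++ false :: (pd e x i).reverse).length
      + 8 ≤ poly c x.length := by
    intro x i
    refine le_trans (le_of_eq ?_) (hc x.length)
    simp only [List.length_append, List.length_replicate, List.length_cons, List.length_reverse,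
      hp e x i, stm, stmt_length]
    unfold tb
    ring
  refine ⟨mc e, c, fun x => ?_, fun x => ?_⟩
  · rw [hL x]
    constructor
    · intro ht
      refine ⟨List.replicate (tb e x) true ++ false :: (pd e x false).reverse, ?_, ?_⟩
      · have := hlen x false
        omega
      · refine (accepts_mc x _ _ (hlen x false)).2 ⟨tb e x, (pd e x false).reverse, rfl, ?_⟩
        rw [List.reverse_reverse, hO.stmt_iff]
        exact ⟨rfl, ⟨false, rfl⟩, ht⟩
    · rintro ⟨w, -, h⟩
      obtain ⟨t, y, -, h1⟩ := form_of_accepts h
      exact (hO.stmt_iff t x _).1 h1 |>.2.2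
  · have hsub : {w : List Bool | w.length ≤ poly c x.length ∧
        AcceptsIn O (mc e) x w (poly c x.length)} ⊆
        {List.replicate (tb e x) true ++ false :: (pd e x false).reverse} := by
      rintro w ⟨-, h⟩
      obtain ⟨t, y, rfl, h2⟩ := form_of_accepts h
      obtain ⟨rfl, ⟨i, hi⟩, -⟩ := (hO.stmt_iff t x _).1 h2
      have h3 : y = (pd e x false).reverse := by
        cases i
        · rw [← hi, List.reverse_reverse]
        · rw [← h1 e x, ← hi, List.reverse_reverse]
      subst h3
      rfl
    refine (Set.encard_le_encard hsub).trans ?_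
    rw [Set.encard_singleton]
    norm_num

end ESY.Uni
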