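import Pool.Agent.Lib.MP_b9add9_lc.Uni.Good
import Pool.Agent.Lib.MP_b9add9_lc.Uni.Push

/-!
# The final argument
-/

namespace ESY.Uni

open ESY ESY.Few Set Filter

theorem inNP_iff (O : Oracle) (L : Set (List Bool)) :
    InNP O L ↔ ∃ e, ∀ x, x ∈ L ↔ Tr O e x := by
  constructor
  · rintro ⟨M, c, h⟩
    obtain ⟨e, he⟩ := nu_surj (M, c)
    refine ⟨e, fun x => ?_⟩
    rw [h x]
    unfold Tr tb
    rw [he]
  · rintro ⟨e, h⟩
    exact ⟨(nu e).1, (nu e).2, h⟩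

/-- the consequences for a generic parameter -/
theorem final {T k : ℕ → ℕ → ℕ} {y : Par} (hy : y ∈ closure {y | Tame y})
    (hG : ∀ a b M c, y ∈ GoodM a b M (T c) ∧ y ∈ GoodQ a b M (T c) (k c))
    {A B : Set (List Bool)} (hAB : NPPair (O1 y) A B) :
    ∃ C D, NPPair (O1 y) C D ∧ ¬ MReduces T (O1 y) C D A B ∧ ¬ QReduces T k (O1 y) C D A B := by
  obtain ⟨hA, hB, hdisj⟩ := hAB
  obtain ⟨a, ha⟩ := (inNP_iff _ _).1 hA
  obtain ⟨b, hb⟩ := (inNP_iff _ _).1 hB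
  have hdis : ¬ ∃ q, Tr (O1 y) a q ∧ Tr (O1 y) b q := by
    rintro ⟨q, h1, h2⟩
    exact Set.disjoint_left.1 hdisj ((ha q).2 h1) ((hb q).2 h2)
  have hK : y ∈ KK := isClosed_KK.closure_subset_iff.2 (fun y hy => hy.1) hy
  refine ⟨{x | inp a b false x ∈ Test (O1 y)}, {x | inp a b true x ∈ Test (O1 y)},
    ⟨inNP_inp _ _ _ _, inNP_inp _ _ _ _, ?_⟩, ?_, ?_⟩
  · refine Set.disjoint_left.2 fun x h1 h2 => ?_
    obtain ⟨q, -, h3⟩ := hK a b x h1 h2
    exact hdis ⟨q, h3⟩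
  · rintro ⟨M, c, h⟩
    rcases (hG a b M c).1 with h1 | h1
    · exact hdis h1
    · obtain ⟨x, hx⟩ := mem_iUnion.1 h1
      refine hx ?_
      obtain ⟨z, hz1, hz2, hz3⟩ := h x
      exact ⟨z, hz1, fun h' => (ha z).1 (hz2 h'), fun h' => (hb z).1 (hz3 h')⟩
  · intro hQ
    obtain ⟨M, c, h⟩ := hQ (sep1 y a b) ⟨fun x hx => if_pos ((ha x).1 hx), fun x hx => by
      unfold sep1
      rw [if_neg fun h => hdis ⟨x, h, (hb x).1 hx⟩, if_pos ((hb x).1 hx)]⟩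
    rcases (hG a b M c).2 with h1 | h1
    · exact hdis h1
    · obtain ⟨x, hx⟩ := mem_iUnion.1 h1
      exact hx ⟨(h x).1, (h x).2.1, (h x).2.2⟩

theorem main (T : ℕ → ℕ → ℕ) (hT : Subexponential T) (k : ℕ → ℕ → ℕ)
    (hk : ∀ c j : ℕ, ∀ᶠ n in atTop, j * k c n ≤ n) :
    ∃ O : Oracle, (∀ L, InNP O L → InUPk 1 O L) ∧ (¬ ∃ A B, MComplete O A B) ∧
      ∀ A B, NPPair O A B → ∃ C D, NPPair O C D ∧
        ¬ MReduces T O C D A B ∧ ¬ QReduces T k O C D A B := by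
  let T' : ℕ → ℕ → ℕ := fun c => if c % 2 = 0 then T (c / 2) else poly (c / 2)
  let k' : ℕ → ℕ → ℕ := fun c => k (c / 2)
  have hT' : Subexponential T' := by
    intro c k
    by_cases h : c % 2 = 0
    · simpa only [T', h, if_true] using hT (c / 2) k
    · simpa only [T', h, if_false] using subexponential_poly (c / 2) k
  have hk' : ∀ c, Sub fun n => 2 ^ k' c n := by
    intro c j
    filter_upwards [hk (c / 2) j] with n hn
    rw [← pow_mul, mul_comm]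
    exact Nat.pow_le_pow_right (by norm_num) hn
  have h0 : ∀ c, T' (2 * c) = T c := by
    intro c
    simp [T']
  have hk0 : ∀ c, k' (2 * c) = k c := by
    intro c
    simp [k']
  have h1 : ∀ c, T' (2 * c + 1) = poly c := by
    intro c
    have h2 : (2 * c + 1) % 2 ≠ 0 := by omega
    have h3 : (2 * c + 1) / 2 = c := by omega
    simp only [T', h2, if_false, h3]
  obtain ⟨y, hy, hG⟩ := exists_generic T' hT' k' hk'
  refine ⟨O1 y, fun L hL => ?_, ?_, fun A B hAB => ?_⟩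
  · obtain ⟨e, he⟩ := (inNP_iff _ _).1 hL
    exact up_of_world (len_pd1 y) (fun _ _ => rfl) (isWorld_O1 y) he
  · rintro ⟨A, B, hAB, hc⟩
    obtain ⟨C, D, hCD, h2, -⟩ := final hy hG hAB
    refine h2 ?_
    obtain ⟨M, c, hM⟩ := hc C D hCD
    refine ⟨M, 2 * c + 1, fun x => ?_⟩
    rw [h1]
    exact hM x
  · obtain ⟨C, D, hCD, h2, h3⟩ := final hy hG hAB
    refine ⟨C, D, hCD, ?_, ?_⟩
    · rintro ⟨M, c, hM⟩
      refine h2 ⟨M, 2 * c, fun x => ?_⟩
      rw [h0]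
      exact hM x
    · intro hQ
      refine h3 fun S hS => ?_
      obtain ⟨M, c, hM⟩ := hQ S hS
      refine ⟨M, 2 * c, fun x => ?_⟩
      rw [h0, hk0]
      exact hM x

end ESY.Uni
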