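import Pool.Agent.Lib.MP_b9add9_lc.Uni.Fork

/-!
# The forking lemma, conclusion
-/

namespace ESY.Uni

open ESY ESY.Few Set

open Classical in
/-- the oracle with no code strings of long statements -/
noncomputable def small (y₀ : Par) (n : ℕ) : Oracle := fun r =>
  if ∃ z e x, r = false :: cs z (stm e x) ∧ n < (stm e x).length then false else O1 y₀ r

open Classical in
theorem sep_eq (A A' B B' : Prop) (h1 : ¬ (A ∧ B)) (h2 : ¬ (A' ∧ B')) (h3 : ¬ (A ∧ B'))
    (h4 : ¬ (A' ∧ B)) : (if A then true else if B then false else decide (A ∨ A')) =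
      (if A' then true else if B' then false else decide (A ∨ A')) := by
  by_cases hA : A <;> by_cases hA' : A' <;> by_cases hB : B <;> by_cases hB' : B' <;> simp_all

namespace Fork

variable {a b : ℕ} (F : Fork a b)

/-- the one-point family -/
abbrev pt (p : Bool × F.V) : Bool × List Bool := (p.1, wl p.2)

theorem pt_len (p : Bool × F.V) : (F.pt p).2.length = F.n := by simp

theorem words_pt (p : Bool × F.V) : F.Words {F.pt p} := by
  rintro _ rfl
  exact F.pt_len p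

theorem exists_nu : ∃ ν : F.E → F.V, (∀ s, F.code s (ν s) ∉ F.T₀) ∧
    ∃ G : Finset (Bool × F.V), G.card ≤ 2 * F.B + F.T₀.card ∧ ∀ p, p ∉ G →
      ∀ s : F.E, ¬ Tr (F.W ν {F.pt p}) s.1.1 s.1.2 → F.code s (ν s) ∉ F.CS (F.W ν {F.pt p}) := by
  classical
  obtain ⟨ν, h1, G, h2, h3⟩ := choose_nu (E := F.E) (V := F.V) (P := Bool × F.V)
    (fun p => Finset.univ.filter fun ν => ∃ s : F.E, ¬ Tr (F.W ν {F.pt p}) s.1.1 s.1.2 ∧
      F.code s (ν s) ∈ F.CS (F.W ν {F.pt p})) F.B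
    (fun p => resample (fun ν => F.W ν {F.pt p}) (fun s O => ¬ Tr O s.1.1 s.1.2)
      (fun s v O => F.code s v ∈ F.CS O) F.B (fun ν s v h => F.W_update ν _ s v h)
      (fun ν => by
        obtain ⟨K, hK1, hK2⟩ := F.CS_fin (F.len_pn ν) (F.isW ν {F.pt p})
        obtain ⟨H, hH1, hH2⟩ := F.code_count K
        exact ⟨H, hH1.trans hK2, fun s v h => hH2 s v (hK1 _ h)⟩)
      _ (fun ν hν => (Finset.mem_filter.1 hν).2))
    (Finset.univ.filter fun ν => ∃ s : F.E, F.code s (ν s) ∈ F.T₀) F.T₀.card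
    (resample (fun _ => ()) (fun _ _ => True) (fun s v _ => F.code s v ∈ F.T₀) F.T₀.card
      (fun _ _ _ _ => rfl)
      (fun ν => by
        obtain ⟨H, hH1, hH2⟩ := F.code_count F.T₀
        exact ⟨H, hH1, fun s v h => hH2 s v h⟩)
      _ (fun ν hν => by
        obtain ⟨s, hs⟩ := (Finset.mem_filter.1 hν).2
        exact ⟨s, trivial, hs⟩)) 2
    (by rw [Fintype.card_prod, Fintype.card_bool])
    (by
      have := F.hB'
      rw [F.card_V]
      omega)
  refine ⟨ν, fun s hs => h1 (Finset.mem_filter.2 ⟨Finset.mem_univ _, s, hs⟩), G, h2,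
    fun p hp s hs1 hs2 => h3 p hp (Finset.mem_filter.2 ⟨Finset.mem_univ _, s, hs1, hs2⟩)⟩

theorem W_small (ν : F.E → F.V) (hν : ∀ s, F.code s (ν s) ∉ F.T₀)
    {P : Set (Bool × List Bool)} (hP : F.Words P) {r : List Bool} (hr : r ∈ F.T₀)
    (hb : ∀ p ∈ P, ¬ F.Blk p r) : F.W ν P r = small F.y₀ F.n r := by
  have hL : r.length ≤ F.L := by
    have := Finset.le_sup (f := List.length) hr
    unfold L
    omega
  match r, hr, hb, hL with
  | [], _, _, _ =>
    have h1 : ¬ ∃ z e x, ([] : List Bool) = false :: cs z (stm e x) ∧ F.n < (stm e x).length := by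
      rintro ⟨z, e, x, h, -⟩
      simp at h
    rw [(F.isW ν P).nil]
    exact ((if_neg h1).trans (isWorld_O1 _).nil).symm
  | true :: s, _, hb, _ =>
    have h1 : ¬ ∃ z e x, (true :: s) = false :: cs z (stm e x) ∧ F.n < (stm e x).length := by
      rintro ⟨z, e, x, h, -⟩
      exact absurd (List.cons.inj h).1 (by decide)
    rw [(F.isW ν P).free, F.DP_neg (by rintro ⟨p, hp, h⟩; exact hb p hp h)]
    exact ((if_neg h1).trans ((isWorld_O1 _).free s)).symm
  | false :: r', hr, _, hL =>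
    by_cases h1 : ∃ z e x, (false :: r') = false :: cs z (stm e x) ∧ F.n < (stm e x).length
    · have h2 : small F.y₀ F.n (false :: r') = false := if_pos h1
      rw [h2]
      obtain ⟨z, e, x, h3, h4⟩ := h1
      rw [h3] at hr hL ⊢
      by_contra hcon
      rw [Bool.not_eq_false] at hcon
      obtain ⟨⟨i, hi⟩, -⟩ := ((F.isW ν P).code_iff _ _ _).1 hcon
      have h5 : (stm e x).length ≤ F.L := by
        rw [List.length_cons, cs_length] at hL
        omega
      let s : F.E := ⟨(e, x), h4, h5⟩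
      have h6 : F.pn ν e x i = lab (wl (ν s)) e x := F.pn_E ν s i
      refine hν s ?_
      rw [hi, h6] at hr
      exact hr
    · have h2 : small F.y₀ F.n (false :: r') = O1 F.y₀ (false :: r') := if_neg h1
      rw [h2, Bool.eq_iff_iff, (F.isW ν P).code, (isWorld_O1 _).code]
      have h3 : ∀ z e x, r' = cs z (stm e x) → (stm e x).length ≤ F.n := by
        intro z e x h
        by_contra h4
        exact h1 ⟨z, e, x, by rw [h], not_le.1 h4⟩
      constructor
      · rintro ⟨e, x, i, h4, h5⟩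
        have h6 := h3 _ _ _ h4
        exact ⟨e, x, i, by rw [h4, F.pn_short ν h6], (F.tr_short ν hP h6).2 h5⟩
      · rintro ⟨e, x, i, h4, h5⟩
        have h6 := h3 _ _ _ h4
        exact ⟨e, x, i, by rw [h4, F.pn_short ν h6], (F.tr_short ν hP h6).1 h5⟩

theorem test_mem (ν : F.E → F.V) (p : Bool × F.V) : F.X p.1 ∈ Test (F.W ν {F.pt p}) := by
  refine ⟨wl p.2, by rw [X_len]; simp, fun j hj => ?_⟩
  rw [qstr_cons, (F.isW ν _).free]
  exact F.DP_pos ⟨F.pt p, rfl, j, by rw [X_len] at hj; exact hj, (qstr_cons _ _ _).symm⟩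

/-- **The forking lemma.** -/
theorem fork : ∃ yC yD : Par, (yC ∈ F.U ∧ yD ∈ F.U) ∧ (Tame yC ∧ Tame yD) ∧
    (F.X false ∈ Test (O1 yC) ∧ F.X true ∈ Test (O1 yD)) ∧
    (∀ r ∈ F.T₀, O1 yC r = small F.y₀ F.n r ∧ O1 yD r = small F.y₀ F.n r) ∧
    ∀ q ∈ F.V₀, sep1 yC a b q = sep1 yD a b q := by
  classical
  obtain ⟨ν, hν, G, hG1, hG2⟩ := F.exists_nu
  -- finite sets containing the closures
  have hc : ∀ p : Bool × F.V, ∃ K : Finset (List Bool),
      (∀ r ∈ F.CS (F.W ν {F.pt p}), r ∈ K) ∧ K.card ≤ F.B := fun p =>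
    F.CS_fin (F.len_pn ν) (F.isW ν {F.pt p})
  choose K hK1 hK2 using hc
  have hbc : ∀ (σ : Bool) (G : Finset (List Bool)), ∃ H : Finset F.V, H.card ≤ G.card ∧
    ∀ u : F.V, (∃ r ∈ G, F.Blk (σ, wl u) r) → u ∈ H := F.blk_count
  choose H hH1 hH2 using hbc
  -- good words
  let good : Bool → Finset F.V := fun σ =>
    Finset.univ.filter fun u => (σ, u) ∉ G ∧ u ∉ H σ F.T₀
  have hgood : ∀ σ, 2 * F.B + 1 < (good σ).card := by
    intro σ
    have h1 : (Finset.univ : Finset F.V) ⊆ good σ ∪ (G.image Prod.snd ∪ H σ F.T₀) := by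
      intro u _
      by_cases h2 : (σ, u) ∈ G
      · exact Finset.mem_union_right _ (Finset.mem_union_left _
          (Finset.mem_image.2 ⟨_, h2, rfl⟩))
      · by_cases h3 : u ∈ H σ F.T₀
        · exact Finset.mem_union_right _ (Finset.mem_union_right _ h3)
        · exact Finset.mem_union_left _ (Finset.mem_filter.2 ⟨Finset.mem_univ _, h2, h3⟩)
    have h2 := Finset.card_le_card h1
    have h3 := Finset.card_union_le (good σ) (G.image Prod.snd ∪ H σ F.T₀)
    have h4 := Finset.card_union_le (G.image Prod.snd) (H σ F.T₀)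
    have h5 : (G.image Prod.snd).card ≤ G.card := Finset.card_image_le
    have h6 := hH1 σ F.T₀
    have h7 := F.hB'
    rw [Finset.card_univ, F.card_V] at h2
    omega
  obtain ⟨u, hu, u', hu', -, hR1, hR2⟩ := exists_pair (good false) (good true)
    (fun u u' => u' ∈ H true (K (false, u))) (fun u u' => u ∈ H false (K (true, u'))) F.B
    (fun u => H true (K (false, u))) (fun u' => H false (K (true, u')))
    (fun u _ => ⟨(hH1 _ _).trans (hK2 _), fun _ h => h⟩)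
    (fun u' _ => ⟨(hH1 _ _).trans (hK2 _), fun _ h => h⟩) (hgood false) (hgood true)
  obtain ⟨-, hu1, hu2⟩ := Finset.mem_filter.1 hu
  obtain ⟨-, hu'1, hu'2⟩ := Finset.mem_filter.1 hu'
  -- the union world
  let P : Set (Bool × List Bool) := {F.pt (false, u), F.pt (true, u')}
  have hP1 : ∀ q, q ∈ P ↔ q = F.pt (false, u) ∨ q = F.pt (true, u') := fun q => Iff.rfl
  have hP2 : ∀ q, q ∈ P ↔ q = F.pt (true, u') ∨ q = F.pt (false, u) := fun q => or_comm
  have hPw : F.Words P := by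
    rintro _ (rfl | rfl)
    · exact F.pt_len _
    · exact F.pt_len _
  have key1 : ∀ q ∈ F.V₀, (Tr (F.W ν {F.pt (false, u)}) a q → Tr (F.W ν P) a q) ∧
      (Tr (F.W ν {F.pt (false, u)}) b q → Tr (F.W ν P) b q) := fun q hq =>
    F.tr_union ν (F.pt_len _) (F.pt_len (true, u'))
      (fun r hr h => hR1 (hH2 true (K (false, u)) u' ⟨r, hK1 _ r hr, h⟩))
      (fun s hs => hG2 _ hu1 s hs) hP1 hq
  have key2 : ∀ q ∈ F.V₀, (Tr (F.W ν {F.pt (true, u')}) a q → Tr (F.W ν P) a q) ∧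
      (Tr (F.W ν {F.pt (true, u')}) b q → Tr (F.W ν P) b q) := fun q hq =>
    F.tr_union ν (F.pt_len _) (F.pt_len (false, u))
      (fun r hr h => hR2 (hH2 false (K (true, u')) u ⟨r, hK1 _ r hr, h⟩))
      (fun s hs => hG2 _ hu'1 s hs) hP2 hq
  have hno : ∀ q ∈ F.V₀, ¬ (Tr (F.W ν P) a q ∧ Tr (F.W ν P) b q) := by
    rintro q hq ⟨h1, h2⟩
    have h3 : Tame (mk1 F.y₀ (F.pn ν) (F.DP P) (sgOf F.y₀)) :=
      F.memK ν hPw (fun _ _ _ _ => ⟨q, F.hm q hq, h1, h2⟩) _
    refine F.hdis _ (F.memU ν hPw fun _ _ _ _ => rfl) h3 q ?_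
    rw [O1_y]
    exact ⟨h1, h2⟩
  -- the separator
  let sg : ℕ → ℕ → Oracle := fun j₁ j₂ q =>
    if j₁ = a ∧ j₂ = b ∧ F.N < q.length then
      decide (Tr (F.W ν {F.pt (false, u)}) a q ∨ Tr (F.W ν {F.pt (true, u')}) a q)
    else sgOf F.y₀ j₁ j₂ q
  have hsg : ∀ j₁ j₂ (q : List Bool), q.length ≤ F.N → sg j₁ j₂ q = sgOf F.y₀ j₁ j₂ q :=
    fun j₁ j₂ q h => if_neg fun h' => absurd h'.2.2 (not_lt.2 h)
  have hsg' : ∀ q : List Bool, F.N < q.length → sg a b q =
      decide (Tr (F.W ν {F.pt (false, u)}) a q ∨ Tr (F.W ν {F.pt (true, u')}) a q) :=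
    fun q h => if_pos ⟨rfl, rfl, h⟩
  have hw1 := F.words_pt (false, u)
  have hw2 := F.words_pt (true, u')
  refine ⟨mk1 F.y₀ (F.pn ν) (F.DP {F.pt (false, u)}) sg,
    mk1 F.y₀ (F.pn ν) (F.DP {F.pt (true, u')}) sg, ⟨F.memU ν hw1 hsg, F.memU ν hw2 hsg⟩,
    ⟨F.memK ν hw1 ?_ sg, F.memK ν hw2 ?_ sg⟩, ⟨?_, ?_⟩, ?_, ?_⟩
  · intro w w' _ h
    exact absurd (congrArg Prod.fst (mem_singleton_iff.1 h)) (by simp)
  · intro w w' h _
    exact absurd (congrArg Prod.fst (mem_singleton_iff.1 h)) (by simp)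
  · rw [O1_y]
    exact F.test_mem ν (false, u)
  · rw [O1_y]
    exact F.test_mem ν (true, u')
  · intro r hr
    rw [O1_y, O1_y]
    constructor
    · refine F.W_small ν hν hw1 hr ?_
      rintro _ rfl h
      exact hu2 (hH2 _ _ _ ⟨r, hr, h⟩)
    · refine F.W_small ν hν hw2 hr ?_
      rintro _ rfl h
      exact hu'2 (hH2 _ _ _ ⟨r, hr, h⟩)
  · intro q hq
    have hno1 : ¬ (Tr (F.W ν {F.pt (false, u)}) a q ∧ Tr (F.W ν {F.pt (false, u)}) b q) :=
      fun h => hno q hq ⟨(key1 q hq).1 h.1, (key1 q hq).2 h.2⟩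
    have hno2 : ¬ (Tr (F.W ν {F.pt (true, u')}) a q ∧ Tr (F.W ν {F.pt (true, u')}) b q) :=
      fun h => hno q hq ⟨(key2 q hq).1 h.1, (key2 q hq).2 h.2⟩
    have hno3 : ¬ (Tr (F.W ν {F.pt (false, u)}) a q ∧ Tr (F.W ν {F.pt (true, u')}) b q) :=
      fun h => hno q hq ⟨(key1 q hq).1 h.1, (key2 q hq).2 h.2⟩
    have hno4 : ¬ (Tr (F.W ν {F.pt (true, u')}) a q ∧ Tr (F.W ν {F.pt (false, u)}) b q) :=
      fun h => hno q hq ⟨(key2 q hq).1 h.1, (key1 q hq).2 h.2⟩
    unfold sep1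
    rw [O1_y, O1_y, sgOf_mk1, sgOf_mk1]
    by_cases hqN : q.length ≤ F.N
    · have h1 := F.hN q hqN
      have h2 := F.n₁_le
      have h3 : Tr (F.W ν {F.pt (false, u)}) a q ↔ Tr (F.W ν {F.pt (true, u')}) a q :=
        (F.tr_short ν hw1 (by omega)).symm.trans (F.tr_short ν hw2 (by omega))
      have h4 : Tr (F.W ν {F.pt (false, u)}) b q ↔ Tr (F.W ν {F.pt (true, u')}) b q :=
        (F.tr_short ν hw1 (by omega)).symm.trans (F.tr_short ν hw2 (by omega))
      simp only [h3, h4]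
    · rw [hsg' q (not_le.1 hqN)]
      exact sep_eq _ _ _ _ hno1 hno2 hno3 hno4

end Fork

end ESY.Uni
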