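import Pool.Agent.Lib.MP_80aaf5_lc.Local
import Pool.Agent.Lib.MP_b9add9_lc.Uni.Defs

/-!
# The tree of the runs with few questions to the second oracle
-/

namespace ESY.Uni

open ESY

theorem queries2_succ (O : Oracle) (M : Machine) (t : ℕ) (c : Cfg M) :
    queries2 O M (t + 1) c = queries2 O M t (step O M c) + asks2 M c := by
  unfold queries2
  rw [Finset.sum_range_succ']
  rfl

theorem queries2_congr {O O' : Oracle} {M : Machine} : ∀ (t : ℕ) (c : Cfg M),
    (∀ s ∈ asked O M t c, O' s = O s) → queries2 O' M t c = queries2 O M t c := by
  intro t
  induction t with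
  | zero => intro c _; rfl
  | succ t ih =>
    intro c h
    simp only [asked] at h
    rw [queries2_succ, queries2_succ, step_congr fun s hs => h s (List.mem_append_left _ hs),
      ih _ fun s hs => h s (List.mem_append_right _ hs)]

theorem asks2_cases (M : Machine) (c : Cfg M) :
    (asks2 M c = 1 ∧ ∃ q, asked1 M c = [true :: q]) ∨
    (asks2 M c = 0 ∧ ∀ s ∈ asked1 M c, s = [] ∨ ∃ r, s = false :: r) := by
  unfold asks2 asked1
  cases M.code c.state with
  | query i a b =>
    simp only
    rcases hs : c.stack i with _ | ⟨_ | _, s⟩
    · exact Or.inr ⟨rfl, by simp⟩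
    · exact Or.inr ⟨rfl, by simp⟩
    · exact Or.inl ⟨rfl, s, rfl⟩
  | push i a b => exact Or.inr ⟨rfl, by simp⟩
  | pop i a b d => exact Or.inr ⟨rfl, by simp⟩
  | halt b => exact Or.inr ⟨rfl, by simp⟩

/-- the strings asked in the runs with at most `k` questions to the second oracle, for all
possible answers -/
def tree (O : Oracle) (M : Machine) : ℕ → ℕ → Cfg M → Finset (List Bool)
  | 0, _, _ => ∅
  | t + 1, k, c =>
    if asks2 M c = 1 then
      match k with
      | 0 => ∅
      | k + 1 => (asked1 M c).toFinset ∪ (tree O M t k (step (join O fun _ => true) M c) ∪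
          tree O M t k (step (join O fun _ => false) M c))
    else (asked1 M c).toFinset ∪ tree O M t k (step (join O fun _ => false) M c)

theorem asked1_card (M : Machine) (c : Cfg M) : (asked1 M c).toFinset.card ≤ 1 := by
  refine (List.toFinset_card_le _).trans ?_
  unfold asked1
  cases M.code c.state <;> simp

theorem tree_card (O : Oracle) (M : Machine) : ∀ (t k : ℕ) (c : Cfg M),
    (tree O M t k c).card ≤ t * 2 ^ k := by
  intro t
  induction t with
  | zero => intro k c; simp [tree]
  | succ t ih =>
    intro k c
    have h1 := asked1_card M c
    unfold tree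
    split_ifs with h
    · cases k with
      | zero => simp
      | succ k =>
        simp only
        have h2 := ih k (step (join O fun _ => true) M c)
        have h3 := ih k (step (join O fun _ => false) M c)
        have h4 := Finset.card_union_le (asked1 M c).toFinset
          (tree O M t k (step (join O fun _ => true) M c) ∪
            tree O M t k (step (join O fun _ => false) M c))
        have h5 := Finset.card_union_le (tree O M t k (step (join O fun _ => true) M c))
          (tree O M t k (step (join O fun _ => false) M c))
        have h6 : (t + 1) * 2 ^ (k + 1) = 2 * (t * 2 ^ k) + 2 ^ (k + 1) := by ring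
        have h7 : 1 ≤ 2 ^ (k + 1) := Nat.one_le_two_pow
        omega
    · have h2 := ih k (step (join O fun _ => false) M c)
      have h4 := Finset.card_union_le (asked1 M c).toFinset
        (tree O M t k (step (join O fun _ => false) M c))
      have h6 : (t + 1) * 2 ^ k = t * 2 ^ k + 2 ^ k := by ring
      have h7 : 1 ≤ 2 ^ k := Nat.one_le_two_pow
      omega

theorem asked1_len (M : Machine) (c : Cfg M) (m : ℕ) (h : ∀ i, (c.stack i).length ≤ m) :
    ∀ s ∈ asked1 M c, s.length ≤ m := by
  intro s hs
  unfold asked1 at hs
  cases hc : M.code c.state with
  | query i a b =>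
    rw [hc] at hs
    simp only [List.mem_singleton] at hs
    rw [hs]
    exact h i
  | push i a b => rw [hc] at hs; simp at hs
  | pop i a b d => rw [hc] at hs; simp at hs
  | halt b => rw [hc] at hs; simp at hs

theorem tree_len (O : Oracle) (M : Machine) : ∀ (t k : ℕ) (c : Cfg M) (m : ℕ),
    (∀ i, (c.stack i).length ≤ m) → ∀ s ∈ tree O M t k c, s.length ≤ m + t := by
  intro t
  induction t with
  | zero => intro k c m _ s hs; simp [tree] at hs
  | succ t ih =>
    intro k c m h s hs
    have h1 := asked1_len M c m h
    unfold tree at hs
    split_ifs at hs with h2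
    · cases k with
      | zero => simp at hs
      | succ k =>
        simp only [Finset.mem_union, List.mem_toFinset] at hs
        rcases hs with hs | hs | hs
        · have := h1 s hs
          omega
        · have := ih k _ (m + 1) (step_len (join O fun _ => true) M c m h) s hs
          omega
        · have := ih k _ (m + 1) (step_len (join O fun _ => false) M c m h) s hs
          omega
    · simp only [Finset.mem_union, List.mem_toFinset] at hs
      rcases hs with hs | hs
      · have := h1 s hs
        omega
      · have := ih k _ (m + 1) (step_len (join O fun _ => false) M c m h) s hs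
        omega

theorem asked_sub_tree {O O₁ S : Oracle} {M : Machine} : ∀ (t k : ℕ) (c : Cfg M),
    (∀ r, (false :: r) ∈ tree O M t k c → O₁ r = O r) →
    queries2 (join O₁ S) M t c ≤ k →
    ∀ s ∈ asked (join O₁ S) M t c, s ∈ tree O M t k c := by
  intro t
  induction t with
  | zero => intro k c _ _ s hs; simp [asked] at hs
  | succ t ih =>
    intro k c h hq s hs
    rw [queries2_succ] at hq
    rcases asks2_cases M c with ⟨h1, q, h2⟩ | ⟨h1, h2⟩
    · rw [h1] at hq
      obtain ⟨k', rfl⟩ : ∃ k', k = k' + 1 := ⟨k - 1, by omega⟩
      have h3 : tree O M (t + 1) (k' + 1) c = (asked1 M c).toFinset ∪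
          (tree O M t k' (step (join O fun _ => true) M c) ∪
          tree O M t k' (step (join O fun _ => false) M c)) := if_pos h1
      have h4 : step (join O₁ S) M c = step (join O fun _ => S q) M c := by
        refine step_congr fun s hs => ?_
        rw [h2, List.mem_singleton] at hs
        subst hs
        rfl
      rw [h3] at h ⊢
      simp only [asked, List.mem_append] at hs
      rw [h4] at hs hq
      rcases hs with hs | hs
      · exact Finset.mem_union_left _ (List.mem_toFinset.2 hs)
      · refine Finset.mem_union_right _ ?_
        cases hS : S q
        · rw [hS] at hs hq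
          refine Finset.mem_union_right _ (ih k' _ (fun r hr => h r ?_) (by omega) s hs)
          exact Finset.mem_union_right _ (Finset.mem_union_right _ hr)
        · rw [hS] at hs hq
          refine Finset.mem_union_left _ (ih k' _ (fun r hr => h r ?_) (by omega) s hs)
          exact Finset.mem_union_right _ (Finset.mem_union_left _ hr)
    · have h3 : tree O M (t + 1) k c = (asked1 M c).toFinset ∪
          tree O M t k (step (join O fun _ => false) M c) := if_neg (by rw [h1]; decide)
      rw [h3] at h ⊢
      have h4 : step (join O₁ S) M c = step (join O fun _ => false) M c := by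
        refine step_congr fun s hs => ?_
        rcases h2 s hs with rfl | ⟨r, rfl⟩
        · rfl
        · exact h r (Finset.mem_union_left _ (List.mem_toFinset.2 hs))
      simp only [asked, List.mem_append] at hs
      rw [h4] at hs hq
      rcases hs with hs | hs
      · exact Finset.mem_union_left _ (List.mem_toFinset.2 hs)
      · exact Finset.mem_union_right _ (ih k _ (fun r hr => h r (Finset.mem_union_right _ hr))
          (by omega) s hs)

end ESY.Uni
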