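import Pool.Agent.Lib.MP_80aaf5_lc.Growth
import Pool.Agent.Lib.MP_b9add9_lc.Uni.Fork2
import Pool.Agent.Lib.MP_b9add9_lc.Uni.Tree

/-!
# Generic parameters
-/

namespace ESY.Uni

open ESY ESY.Few Set Topology Filter

/-! ### the open sets -/

/-- the many-one reduction computed by `M` works on `x` -/
def WorksM (a b : ℕ) (M : Machine) (T : ℕ → ℕ) (y : Par) (x : List Bool) : Prop :=
  ∃ z, Outputs (O1 y) M x z (T x.length) ∧
    (inp a b false x ∈ Test (O1 y) → Tr (O1 y) a z) ∧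
    (inp a b true x ∈ Test (O1 y) → Tr (O1 y) b z)

/-- the Turing reduction computed by `M` works on `x` for the prescribed separator -/
def WorksQ (a b : ℕ) (M : Machine) (T k : ℕ → ℕ) (y : Par) (x : List Bool) : Prop :=
  (inp a b false x ∈ Test (O1 y) →
    AcceptsIn (join (O1 y) (sep1 y a b)) M x [] (T x.length)) ∧
  (inp a b true x ∈ Test (O1 y) →
    ¬ AcceptsIn (join (O1 y) (sep1 y a b)) M x [] (T x.length)) ∧
  queries2 (join (O1 y) (sep1 y a b)) M (T x.length) (start M x []) ≤ k x.length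

/-- the pair is not disjoint -/
def Meet (a b : ℕ) : Set Par := {y | ∃ q, Tr (O1 y) a q ∧ Tr (O1 y) b q}

theorem isOpen_meet (a b : ℕ) : IsOpen (Meet a b) := by
  have h1 : Meet a b = ⋃ q, ({y | Tr (O1 y) a q} ∩ {y | Tr (O1 y) b q}) := by
    ext y
    simp only [Meet, mem_ofPred_eq, mem_iUnion, mem_inter_iff]
  rw [h1]
  exact isOpen_iUnion fun q => ((clopen_tr1 _ _).inter (clopen_tr1 _ _)).2

theorem start_len0 (M : Machine) (x : List Bool) :
    ∀ i, ((start M x []).stack i).length ≤ x.length :=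
  start_len M x [] _ le_rfl (Nat.zero_le _)

theorem clopen_worksM (a b : ℕ) (M : Machine) (T : ℕ → ℕ) (x : List Bool) :
    IsClopen {y | WorksM a b M T y x} := by
  refine clopen_of_local fun y₀ => ?_
  obtain ⟨c₀, hc₀⟩ : ∃ c₀, c₀ = (step (O1 y₀) M)^[T x.length] (start M x []) := ⟨_, rfl⟩
  have h1 : IsClopen {y | (step (O1 y) M)^[T x.length] (start M x []) = c₀} :=
    clopen_run (start_len0 M x) (fun s _ => clopen_O1 _ s le_rfl)
      (fun O => (step O M)^[T x.length] (start M x []) = c₀)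
      fun O O' h => by rw [run_congr _ _ h]
  have h2 : IsClopen {y | M.code c₀.state = .halt true ∧
      (inp a b false x ∈ Test (O1 y) → Tr (O1 y) a (c₀.stack 0)) ∧
      (inp a b true x ∈ Test (O1 y) → Tr (O1 y) b (c₀.stack 0))} := by
    have h3 : {y | M.code c₀.state = .halt true ∧
      (inp a b false x ∈ Test (O1 y) → Tr (O1 y) a (c₀.stack 0)) ∧
      (inp a b true x ∈ Test (O1 y) → Tr (O1 y) b (c₀.stack 0))} =
      {_y | M.code c₀.state = .halt true} ∩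
      (({y | inp a b false x ∈ Test (O1 y)}ᶜ ∪ {y | Tr (O1 y) a (c₀.stack 0)}) ∩
      ({y | inp a b true x ∈ Test (O1 y)}ᶜ ∪ {y | Tr (O1 y) b (c₀.stack 0)})) := by
      ext y
      simp only [mem_ofPred_eq, mem_inter_iff, mem_union, mem_compl_iff, imp_iff_not_or]
    rw [h3]
    refine IsClopen.inter ?_ (((clopen_test1 _).compl.union (clopen_tr1 _ _)).inter
      ((clopen_test1 _).compl.union (clopen_tr1 _ _)))
    by_cases h4 : M.code c₀.state = .halt true
    · simp only [h4]; exact isClopen_univ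
    · simp only [h4]; exact isClopen_empty
  obtain ⟨V₁, hV₁, hy₁, hV₁'⟩ := local_of_clopen h1 y₀
  obtain ⟨V₂, hV₂, hy₂, hV₂'⟩ := local_of_clopen h2 y₀
  have key : ∀ y, (step (O1 y) M)^[T x.length] (start M x []) = c₀ →
      (WorksM a b M T y x ↔ M.code c₀.state = .halt true ∧
      (inp a b false x ∈ Test (O1 y) → Tr (O1 y) a (c₀.stack 0)) ∧
      (inp a b true x ∈ Test (O1 y) → Tr (O1 y) b (c₀.stack 0))) := by
    intro y hy
    unfold WorksM Outputs
    rw [hy]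
    constructor
    · rintro ⟨z, ⟨h3, rfl⟩, h4, h5⟩
      exact ⟨h3, h4, h5⟩
    · rintro ⟨h3, h4, h5⟩
      exact ⟨_, ⟨h3, rfl⟩, h4, h5⟩
  refine ⟨V₁ ∩ V₂, hV₁.inter hV₂, ⟨hy₁, hy₂⟩, fun y hy => ?_⟩
  rw [key y ((hV₁' y hy.1).2 hc₀.symm), key y₀ hc₀.symm]
  exact hV₂' y hy.2

theorem clopen_worksQ (a b : ℕ) (M : Machine) (T k : ℕ → ℕ) (x : List Bool) :
    IsClopen {y | WorksQ a b M T k y x} := by
  have h3 : {y | WorksQ a b M T k y x} = (({y | inp a b false x ∈ Test (O1 y)}ᶜ ∪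
      {y | AcceptsIn (join (O1 y) (sep1 y a b)) M x [] (T x.length)}) ∩
      (({y | inp a b true x ∈ Test (O1 y)}ᶜ ∪
      {y | AcceptsIn (join (O1 y) (sep1 y a b)) M x [] (T x.length)}ᶜ) ∩
      {y | queries2 (join (O1 y) (sep1 y a b)) M (T x.length) (start M x []) ≤ k x.length})) := by
    ext y
    simp only [WorksQ, mem_ofPred_eq, mem_inter_iff, mem_union, mem_compl_iff, imp_iff_not_or]
  rw [h3]
  have h4 : IsClopen {y | AcceptsIn (join (O1 y) (sep1 y a b)) M x [] (T x.length)} :=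
    clopen_accepts fun s _ => clopen_join1 _ _ s
  have h5 : IsClopen {y | queries2 (join (O1 y) (sep1 y a b)) M (T x.length) (start M x []) ≤
      k x.length} :=
    clopen_run (start_len0 M x) (fun s _ => clopen_join1 a b s)
      (fun O => queries2 O M (T x.length) (start M x []) ≤ k x.length)
      fun O O' h => by rw [queries2_congr _ _ h]
  exact ((clopen_test1 _).compl.union h4).inter
    (((clopen_test1 _).compl.union h4.compl).inter h5)

/-- the requirement for a many-one reduction -/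
def GoodM (a b : ℕ) (M : Machine) (T : ℕ → ℕ) : Set Par :=
  Meet a b ∪ ⋃ x, {y | WorksM a b M T y x}ᶜ

/-- the requirement for a Turing reduction -/
def GoodQ (a b : ℕ) (M : Machine) (T k : ℕ → ℕ) : Set Par :=
  Meet a b ∪ ⋃ x, {y | WorksQ a b M T k y x}ᶜ

theorem isOpen_goodM (a b : ℕ) (M : Machine) (T : ℕ → ℕ) : IsOpen (GoodM a b M T) :=
  (isOpen_meet a b).union (isOpen_iUnion fun x => (clopen_worksM a b M T x).compl.2)

theorem isOpen_goodQ (a b : ℕ) (M : Machine) (T k : ℕ → ℕ) : IsOpen (GoodQ a b M T k) :=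
  (isOpen_meet a b).union (isOpen_iUnion fun x => (clopen_worksQ a b M T k x).compl.2)

/-! ### existence of forks -/

theorem exists_fork {a b : ℕ} {v m : ℕ → ℕ} (hv : Sub v) (hm : Sub m) {U : Set Par}
    (hU : IsOpen U) {y₀ : Par} (hy₀ : y₀ ∈ U) (ht : Tame y₀)
    (hdis : ∀ y ∈ U, Tame y → ∀ q, ¬ (Tr (O1 y) a q ∧ Tr (O1 y) b q)) :
    ∃ n₁ : ℕ, ∀ V₀ T₀ : Finset (List Bool), V₀.card ≤ v n₁ → T₀.card ≤ v n₁ →
      (∀ q ∈ V₀, q.length ≤ m n₁) →
      ∃ F : Fork a b, F.U = U ∧ F.y₀ = y₀ ∧ F.n₁ = n₁ ∧ F.V₀ = V₀ ∧ F.T₀ = T₀ := by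
  obtain ⟨N₀, hN₀⟩ := exists_size hU hy₀
  obtain ⟨N, hN0, hfin, hviol⟩ := tame_bound ht N₀
  let ℓ : ℕ → ℕ := fun n => (poly (nu a).2 (m n) + a + m n + 2) +
    (poly (nu b).2 (m n) + b + m n + 2)
  have hℓ : Sub ℓ := by
    refine sub_add (sub_add (sub_add (sub_add ?_ (sub_const _)) hm) (sub_const _))
      (sub_add (sub_add (sub_add ?_ (sub_const _)) hm) (sub_const _))
    · exact sub_poly hm _
    · exact sub_poly hm _
  have h1 : Sub fun n => 4 * (v n * (ℓ n + ℓ n) * (1 + (2 * ℓ n) ^ 2)) + 2 * v n + 1 + 1 :=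
    sub_add (sub_add (sub_add (sub_mul (sub_const 4) (sub_mul (sub_mul hv (sub_add hℓ hℓ))
      (sub_add (sub_const 1) (sub_pow (sub_mul (sub_const 2) hℓ) 2))))
      (sub_mul (sub_const 2) hv)) (sub_const 1)) (sub_const 1)
  obtain ⟨n₁, ⟨hn1, hn2⟩, hn3⟩ := (((h1 1).and (hm 1)).and (eventually_ge_atTop
    (N + (poly (nu a).2 N + a + N + 2) + (poly (nu b).2 N + b + N + 2) + 1))).exists
  simp only [pow_one] at hn1 hn2
  refine ⟨n₁, fun V₀ T₀ hV₀ hT₀ hlen => ?_⟩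
  exact ⟨
    { U := U
      y₀ := y₀
      N := N
      hU := fun y hy => hN₀ y fun i hi => hy i (hi.trans hN0)
      hdis := hdis
      hfin := hfin
      hviol := hviol
      n₁ := n₁
      hn₁ := by omega
      V₀ := V₀
      T₀ := T₀
      ℓ := ℓ n₁
      hℓ := fun q hq => ⟨(stm_len_le a q (m n₁) (hlen q hq)).trans (Nat.le_add_right _ _),
        (stm_len_le b q (m n₁) (hlen q hq)).trans (Nat.le_add_left _ _)⟩
      hN := fun q hq => ⟨(stm_len_le a q N hq).trans (by omega),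
        (stm_len_le b q N hq).trans (by omega)⟩
      hm := fun q hq => (hlen q hq).trans hn2
      hB := by
        have h2 : V₀.card * (ℓ n₁ + ℓ n₁) * (1 + (2 * ℓ n₁) ^ 2) ≤
            v n₁ * (ℓ n₁ + ℓ n₁) * (1 + (2 * ℓ n₁) ^ 2) := by gcongr
        omega }, rfl, rfl, rfl, rfl, rfl⟩

/-- for all separators the two worlds of a fork look the same -/
theorem dense_good {a b : ℕ} {U : Set Par} {G : Set Par} (hG : Meet a b ⊆ G)
    (h : ∀ y₀ ∈ U, Tame y₀ → (∀ y ∈ U, Tame y → ∀ q, ¬ (Tr (O1 y) a q ∧ Tr (O1 y) b q)) →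
      (∀ y ∈ U, Tame y → y ∉ G) → False) (hne : (U ∩ {y | Tame y}).Nonempty) :
    (U ∩ closure {y | Tame y} ∩ G).Nonempty := by
  by_contra hcon
  rw [not_nonempty_iff_eq_empty, eq_empty_iff_forall_notMem] at hcon
  have h0 : ∀ y ∈ U, Tame y → y ∉ G := fun y hy ht hg => hcon y ⟨⟨hy, subset_closure ht⟩, hg⟩
  obtain ⟨y₀, hy₀, ht₀⟩ := hne
  exact h y₀ hy₀ ht₀ (fun y hy ht q hq => h0 y hy ht (hG ⟨q, hq⟩)) h0

theorem dense_goodM (a b : ℕ) (M : Machine) {T : ℕ → ℕ} (hT : Sub T) (U : Set Par)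
    (hU : IsOpen U) (hne : (U ∩ {y | Tame y}).Nonempty) :
    (U ∩ closure {y | Tame y} ∩ GoodM a b M T).Nonempty := by
  refine dense_good subset_union_left (fun y₀ hy₀ ht₀ hdis h0 => ?_) hne
  obtain ⟨n₁, hn₁⟩ := exists_fork (a := a) (b := b) (v := fun n => T n + 1)
    (m := fun n => n + T n) (sub_add hT (sub_const 1)) (sub_add sub_id hT) hU hy₀ ht₀ hdis
  let x₁ : List Bool := List.replicate n₁ false
  have hx₁ : x₁.length = n₁ := by simp [x₁]
  let Os : Oracle := small y₀ (a + b + 3 + n₁)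
  let z₀ : List Bool := ((step Os M)^[T n₁] (start M x₁ [])).stack 0
  have hrunlen : ∀ (t : ℕ) (c : Cfg M) (m : ℕ), (∀ i, (c.stack i).length ≤ m) →
      ∀ i, (((step Os M)^[t] c).stack i).length ≤ m + t := by
    intro t
    induction t with
    | zero => intro c m h i; exact h i
    | succ t ih =>
      intro c m h i
      rw [Function.iterate_succ_apply]
      have := ih _ (m + 1) (step_len Os M c m h) i
      omega
  obtain ⟨F, hFU, hFy, hFn, hFV, hFT⟩ := hn₁ {z₀}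
    (asked Os M (T n₁) (start M x₁ [])).toFinset (by simp)
    (((List.toFinset_card_le _).trans (asked_card _ _ _ _)).trans (Nat.le_succ _))
    (by
      intro q hq
      rw [Finset.mem_singleton.1 hq]
      have := hrunlen (T n₁) (start M x₁ []) n₁
        (fun i => (start_len0 M x₁ i).trans_eq hx₁) 0
      exact this)
  obtain ⟨yC, yD, ⟨hUC, hUD⟩, ⟨hTC, hTD⟩, ⟨hXC, hXD⟩, hsm, hsep⟩ := F.fork
  rw [hFU] at hUC hUD
  have hF1 : F.x₁ = x₁ := by
    unfold Fork.x₁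
    rw [hFn]
  have hFs : small F.y₀ F.n = Os := by
    unfold Fork.n
    rw [hFy, hFn]
  rw [Fork.X, hF1] at hXC hXD
  rw [hFT, hFs] at hsm
  have hrun : ∀ y, (∀ r ∈ (asked Os M (T n₁) (start M x₁ [])).toFinset, O1 y r = Os r) →
      (step (O1 y) M)^[T n₁] (start M x₁ []) = (step Os M)^[T n₁] (start M x₁ []) :=
    fun y hy => run_congr _ _ fun s hs => hy s (List.mem_toFinset.2 hs)
  have hworks : ∀ y ∈ U, Tame y → WorksM a b M T y x₁ := by
    intro y hy ht
    by_contra hcon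
    exact h0 y hy ht (Or.inr (mem_iUnion.2 ⟨x₁, hcon⟩))
  obtain ⟨z, ⟨-, hz⟩, hz1, -⟩ := hworks yC hUC hTC
  obtain ⟨z', ⟨-, hz'⟩, -, hz1'⟩ := hworks yD hUD hTD
  rw [hx₁, hrun yC fun r hr => (hsm r hr).1] at hz
  rw [hx₁, hrun yD fun r hr => (hsm r hr).2] at hz'
  have h1 : Tr (O1 yC) a z₀ := by
    have := hz1 hXC
    rwa [← hz] at this
  have h2 : Tr (O1 yD) b z₀ := by
    have := hz1' hXD
    rwa [← hz'] at this
  have h3 := hsep z₀ (by rw [hFV]; exact Finset.mem_singleton_self _)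
  have h4 : sep1 yC a b z₀ = true := if_pos h1
  have h5 : sep1 yD a b z₀ = false :=
    (if_neg fun h => hdis yD hUD hTD z₀ ⟨h, h2⟩).trans (if_pos h2)
  rw [h4, h5] at h3
  exact absurd h3 (by decide)

theorem dense_goodQ (a b : ℕ) (M : Machine) {T k : ℕ → ℕ} (hT : Sub T)
    (hk : Sub fun n => 2 ^ k n) (U : Set Par)
    (hU : IsOpen U) (hne : (U ∩ {y | Tame y}).Nonempty) :
    (U ∩ closure {y | Tame y} ∩ GoodQ a b M T k).Nonempty := by
  classical
  refine dense_good subset_union_left (fun y₀ hy₀ ht₀ hdis h0 => ?_) hne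
  obtain ⟨n₁, hn₁⟩ := exists_fork (a := a) (b := b) (v := fun n => T n * 2 ^ k n)
    (m := fun n => n + T n) (sub_mul hT hk) (sub_add sub_id hT) hU hy₀ ht₀ hdis
  let x₁ : List Bool := List.replicate n₁ false
  have hx₁ : x₁.length = n₁ := by simp [x₁]
  let Os : Oracle := small y₀ (a + b + 3 + n₁)
  let tr : Finset (List Bool) := tree Os M (T n₁) (k n₁) (start M x₁ [])
  have htc : (tr.image List.tail).card ≤ T n₁ * 2 ^ k n₁ :=
    Finset.card_image_le.trans (tree_card _ _ _ _ _)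
  obtain ⟨F, hFU, hFy, hFn, hFV, hFT⟩ := hn₁ (tr.image List.tail) (tr.image List.tail) htc htc
    (by
      intro q hq
      obtain ⟨s, hs, rfl⟩ := Finset.mem_image.1 hq
      have h1 := tree_len Os M _ _ _ n₁ (fun i => (start_len0 M x₁ i).trans_eq hx₁) s hs
      rw [List.length_tail]
      exact (Nat.sub_le _ _).trans h1)
  obtain ⟨yC, yD, ⟨hUC, hUD⟩, ⟨hTC, hTD⟩, ⟨hXC, hXD⟩, hsm, hsep⟩ := F.fork
  rw [hFU] at hUC hUD
  have hF1 : F.x₁ = x₁ := by
    unfold Fork.x₁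
    rw [hFn]
  have hFs : small F.y₀ F.n = Os := by
    unfold Fork.n
    rw [hFy, hFn]
  rw [Fork.X, hF1] at hXC hXD
  rw [hFT, hFs] at hsm
  rw [hFV] at hsep
  have hworks : ∀ y ∈ U, Tame y → WorksQ a b M T k y x₁ := by
    intro y hy ht
    by_contra hcon
    exact h0 y hy ht (Or.inr (mem_iUnion.2 ⟨x₁, hcon⟩))
  obtain ⟨hC1, -, hC3⟩ := hworks yC hUC hTC
  obtain ⟨-, hD2, -⟩ := hworks yD hUD hTD
  rw [hx₁] at hC1 hC3 hD2
  refine hD2 hXD ((accepts_congr fun s hs => ?_).2 (hC1 hXC))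
  have h1 : s ∈ tr := asked_sub_tree _ _ _ (fun r hr =>
    (hsm r (Finset.mem_image.2 ⟨_, hr, rfl⟩)).1) hC3 s hs
  match s, h1 with
  | [], _ => rfl
  | false :: r, h1 =>
    have h2 := hsm r (Finset.mem_image.2 ⟨_, h1, rfl⟩)
    exact h2.2.trans h2.1.symm
  | true :: q, h1 => exact (hsep q (Finset.mem_image.2 ⟨_, h1, rfl⟩)).symm

theorem exists_generic (T : ℕ → ℕ → ℕ) (hT : Subexponential T) (k : ℕ → ℕ → ℕ)
    (hk : ∀ c, Sub fun n => 2 ^ k c n) :
    ∃ y ∈ closure {y | Tame y}, ∀ a b M c, y ∈ GoodM a b M (T c) ∧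
      y ∈ GoodQ a b M (T c) (k c) := by
  obtain ⟨y, hy, hyG⟩ := baire_closure {y | Tame y} ⟨_, tame_zero⟩
    (fun p : (ℕ × ℕ × Machine × ℕ) × Bool => if p.2 = true then GoodM p.1.1 p.1.2.1 p.1.2.2.1
      (T p.1.2.2.2) else GoodQ p.1.1 p.1.2.1 p.1.2.2.1 (T p.1.2.2.2) (k p.1.2.2.2))
    (by
      rintro ⟨⟨a, b, M, c⟩, _ | _⟩
      · exact isOpen_goodQ a b M (T c) (k c)
      · exact isOpen_goodM a b M (T c))
    (by
      rintro ⟨⟨a, b, M, c⟩, _ | _⟩ U hU hne
      · exact dense_goodQ a b M (hT c) (hk c) U hU hne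
      · exact dense_goodM a b M (hT c) U hU hne)
  exact ⟨y, hy, fun a b M c => ⟨hyG ((a, b, M, c), true), hyG ((a, b, M, c), false)⟩⟩

end ESY.Uni
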